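import Pool.Agent.helper76.DI.LAMD
import Pool.Agent.helper4.AL.TopM

/-!
# Project DI (MP_bf63dc_nt): the dichotomy
-/

set_option autoImplicit false

namespace Pool.Agent.DI

open Finset Real Pool.Agent.AT Pool.Agent.OM Pool.Agent.helper85.FC Pool.Agent.FR Pool.Agent.FM

/-- outside `E` all quotients of elements of `F` are good -/
theorem FIN_all (ε : ℝ) (C : ℕ)
    (hL : ∀ (F : Finset ℕ) (η : ℝ), (∀ s ∈ F, 0 < s) → 0 < η → LamD ε (1 / 1000000) η C F)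
    (F : Finset ℕ) (hF : ∀ s ∈ F, 0 < s) :
    ∃ E : Finset (ℕ × ℕ), #E ≤ C ∧ ∀ s ∈ F, ∀ t ∈ F, s ≠ t → rp s t ∉ E → GQM ε s t := by
  obtain ⟨E, hE, T, hT, hTn, A, hA, hAm, hAp⟩ := hL F (1 / 10000000) hF (by norm_num)
  refine ⟨E, hE, fun s hs t ht hst hr => ?_⟩
  by_contra hG
  have h1 := hAp s hs t ht hst hr hG
  have h2 : mean (A s) + mean (A t) - 1 ≤ mean (fun x => A s x * A t x) := by
    have h3 : mean (fun x => (A s x + A t x) - 1) = mean (A s) + mean (A t) - 1 := by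
      rw [PRJ_sub, PRJ_add, PRJ_const]
    rw [← h3]
    refine LAM_mean_mono fun x => ?_
    obtain ⟨a0, a1⟩ := hA s x
    obtain ⟨b0, b1⟩ := hA t x
    nlinarith
  have h4 := hAm s hs
  have h5 := hAm t ht
  linarith

/-- the pairs which are not good -/
def BadP (ε : ℝ) : Set (ℕ × ℕ) := {r | 1 ≤ r.1 ∧ 1 ≤ r.2 ∧ Nat.Coprime r.1 r.2 ∧ ¬ (r.1 = 1 ∧ r.2 = 1) ∧ ¬ GoodM ε r.1 r.2}

theorem FIN_card (ε : ℝ) (C : ℕ)
    (hL : ∀ (F : Finset ℕ) (η : ℝ), (∀ s ∈ F, 0 < s) → 0 < η → LamD ε (1 / 1000000) η C F)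
    (R : Finset (ℕ × ℕ)) (hR : (R : Set (ℕ × ℕ)) ⊆ BadP ε) : #R ≤ C := by
  classical
  have hF : ∀ s ∈ R.image Prod.fst ∪ R.image Prod.snd, 0 < s := by
    intro s hs
    rw [Finset.mem_union, Finset.mem_image, Finset.mem_image] at hs
    rcases hs with ⟨r, hr, rfl⟩ | ⟨r, hr, rfl⟩
    · exact (hR (Finset.mem_coe.2 hr)).1
    · exact (hR (Finset.mem_coe.2 hr)).2.1
  obtain ⟨E, hE, h⟩ := FIN_all ε C hL _ hF
  refine le_trans (Finset.card_le_card fun r hr => ?_) hE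
  obtain ⟨h1, h2, h3, h4, h5⟩ := hR (Finset.mem_coe.2 hr)
  by_contra hrE
  have hne : r.1 ≠ r.2 := by
    intro he
    apply h4
    rw [he, Nat.coprime_self] at h3
    exact ⟨he.trans h3, h3⟩
  have hg : Nat.gcd r.1 r.2 = 1 := h3
  have hrp : rp r.1 r.2 = r := by
    unfold rp
    rw [hg, Nat.div_one, Nat.div_one]
  have h6 := h r.1 (Finset.mem_union_left _ (Finset.mem_image_of_mem _ hr)) r.2
    (Finset.mem_union_right _ (Finset.mem_image_of_mem _ hr)) hne (by rwa [hrp])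
  unfold GQM at h6
  rw [hg, Nat.div_one, Nat.div_one] at h6
  exact h5 h6

theorem FIN_const (ε : ℝ) (hε : 0 < ε) (hε1 : ε ≤ 1) : ∃ C : ℕ, 2 ^ 76 / (ε * (1 / 1000000)) ^ 18 ≤ (C : ℝ) ∧
    (C : ℝ) + 1 ≤ 10 ^ 131 / ε ^ 18 := by
  obtain ⟨z, hz⟩ : ∃ z : ℝ, z = (2 : ℝ) ^ 76 / (ε * (1 / 1000000)) ^ 18 := ⟨_, rfl⟩
  have hz0 : 0 ≤ z := by rw [hz]; positivity
  rw [← hz]
  refine ⟨⌈z⌉₊, Nat.le_ceil _, ?_⟩
  have h1 : ((⌈z⌉₊ : ℕ) : ℝ) < z + 1 := Nat.ceil_lt_add_one hz0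
  obtain ⟨w, hw⟩ : ∃ w : ℝ, w = 1 / ε ^ 18 := ⟨_, rfl⟩
  have h2 : z = (2 ^ 76 * 1000000 ^ 18) * w := by
    rw [hz, hw, mul_pow]
    field_simp
  have h3 : (1 : ℝ) ≤ w := by
    rw [hw, le_div_iff₀ (by positivity), one_mul]
    exact pow_le_one₀ hε.le hε1
  have h4 : (10 : ℝ) ^ 131 / ε ^ 18 = 10 ^ 131 * w := by rw [hw]; ring
  rw [h4]
  have h5 : ((⌈z⌉₊ : ℕ) : ℝ) + 1 ≤ (2 ^ 76 * 1000000 ^ 18) * w + 2 * 1 := by rw [← h2]; linarith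
  refine h5.trans ?_
  have h7 : (2 ^ 76 * 1000000 ^ 18) * w + 2 * 1 ≤ (2 ^ 76 * 1000000 ^ 18 + 2) * w := by linarith
  refine h7.trans ?_
  have h8 : (2 ^ 76 * 1000000 ^ 18 + 2 : ℝ) ≤ 10 ^ 131 := by norm_num
  exact mul_le_mul_of_nonneg_right h8 (by linarith)

/-- if two clusters fail then all pairs with at most `10^131 / ε^18` exceptions are good -/
theorem FIN_good (hTC : ∀ K : ℕ, 1 ≤ K → ¬ Pool.Agent.AL.TwoClusters K) (ε : ℝ) (hε : 0 < ε) :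
    ∃ E : Finset (ℕ × ℕ), (#E : ℝ) ≤ 10 ^ 131 / ε ^ 18 ∧ ∀ a b : ℕ, 1 ≤ a → 1 ≤ b → Nat.Coprime a b → (a, b) ∉ E → GoodM ε a b := by
  classical
  by_cases hε1 : ε ≤ 1
  · obtain ⟨C, hC, hC2⟩ := FIN_const ε hε hε1
    have hL := LAMD KBD SPE (COR CSY ERR MAI PRJ) Pool.Agent.FR.ORT BES FOL FOK Q_all PRT hTC ε (1 / 1000000) C hε (by norm_num)
      (by linarith) hC
    have hfin : (BadP ε).Finite := by
      by_contra h
      have h1 : (BadP ε).Infinite := h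
      obtain ⟨R, hR, hRc⟩ := h1.exists_subset_card_eq (C + 1)
      have h2 := FIN_card ε C hL R hR
      omega
    have hcard := FIN_card ε C hL hfin.toFinset (by rw [Set.Finite.coe_toFinset])
    refine ⟨insert (1, 1) hfin.toFinset, ?_, fun a b ha hb hab hE => ?_⟩
    · have h1 := Finset.card_insert_le ((1, 1) : ℕ × ℕ) hfin.toFinset
      have h2 : #(insert ((1, 1) : ℕ × ℕ) hfin.toFinset) ≤ C + 1 := by omega
      have h3 : (#(insert ((1, 1) : ℕ × ℕ) hfin.toFinset) : ℝ) ≤ (C : ℝ) + 1 := by exact_mod_cast h2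
      exact h3.trans hC2
    · by_contra hG
      apply hE
      rw [Finset.mem_insert]
      by_cases h1 : a = 1 ∧ b = 1
      · left
        rw [h1.1, h1.2]
      · right
        rw [Set.Finite.mem_toFinset]
        exact ⟨ha, hb, hab, h1, hG⟩
  · push Not at hε1
    refine ⟨∅, ?_, fun a b _ _ _ _ => ?_⟩
    · simp only [Finset.card_empty, Nat.cast_zero]
      positivity
    · refine ⟨1, 0, 0, le_rfl, fun T₀ => ⟨T₀, le_rfl, 0, by simp, ?_⟩⟩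
      have h1 : (1 - ε) * (T₀ : ℝ) ≤ 0 := mul_nonpos_of_nonpos_of_nonneg (by linarith) (Nat.cast_nonneg _)
      exact h1.trans (Nat.cast_nonneg _)

/-- **The dichotomy**, for every modulus -/
theorem dichotomy : ∀ m : ℕ, 1 ≤ m → (∃ K : ℕ, 1 ≤ K ∧ Pool.Agent.AL.TCM m K ∧ Pool.Agent.AL.SparseM m K 1) ∨
    (Pool.Agent.AL.GapsM m ∧ Pool.Agent.AL.QuarterM m ∧ ∀ ε : ℝ, 0 < ε → ∃ E : Finset (ℕ × ℕ), (#E : ℝ) ≤ 10 ^ 131 / ε ^ 18 ∧
      ∀ a b : ℕ, 1 ≤ a → 1 ≤ b → Nat.Coprime a b → (a, b) ∉ E → GoodM ε a b) := by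
  intro m hm
  by_cases h : ∃ K : ℕ, 1 ≤ K ∧ Pool.Agent.AL.TCM m K
  · obtain ⟨K, hK, hT⟩ := h
    obtain ⟨C, hC, hS⟩ := (Pool.Agent.AL.MSP Pool.Agent.AL.KSB) m K hm hK
    exact Or.inl (Pool.Agent.AL.MUN m K C hm hK hC hT (hS hT))
  · rcases Pool.Agent.AL.altm m hm with ⟨K, hK, hT, hS⟩ | ⟨h1, h2⟩
    · exact absurd ⟨K, hK, hT⟩ h
    · refine Or.inr ⟨h1, h2, fun ε hε => FIN_good ?_ ε hε⟩
      intro K hK hTC
      refine h ⟨K, hK, fun X Y hX hY hXY => hTC X Y hX hY fun x hx y hy => ?_⟩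
      obtain ⟨h3, h4⟩ := hXY x hx y hy
      refine ⟨h3, ?_⟩
      rw [even_iff_two_dvd]
      refine dvd_trans ?_ h4
      push_cast
      exact dvd_mul_right _ _

end Pool.Agent.DI
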