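import Pool.Agent.helper19.FM.Asm2
import Pool.Agent.helper22.FR.ORT
import Pool.Agent.helper19.FR.SPE

/-!
# Project DI (MP_bf63dc_nt): the dichotomy, definitions and basic rows

A point `x < 2 X` is a position `x / 2 < X` together with a sign `x % 2`.
-/

set_option autoImplicit false

namespace Pool.Agent.DI

open Finset Real Pool.Agent.AT Pool.Agent.OM Pool.Agent.helper85.FC Pool.Agent.FR Pool.Agent.FM

open Classical in
/-- `1` if `c₀ + M y` is not true for `(a, b)`, otherwise `0` -/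
noncomputable def badc (a b M : ℕ) (c₀ y : ℤ) : ℝ := if TrueCase a b (c₀ + M * y) then 0 else 1

/-- `badc` minus its average over `l` terms of a progression of difference `D` -/
noncomputable def bdc (a b M D l : ℕ) (c₀ y : ℤ) : ℝ :=
  badc a b M c₀ y - mean fun k : Fin l => badc a b M c₀ (y + D * ((k : ℕ) : ℤ))

/-- the residue class of the equation -/
def cl (a b : ℕ) (g : ℕ → ℤ) (x x' : ℕ) : ℤ := (a : ℤ) * g (x % 2) - (b : ℤ) * g (x' % 2)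

/-- the position of the equation -/
def ps (a b x x' : ℕ) : ℤ := (a : ℤ) * ((x / 2 : ℕ) : ℤ) - (b : ℤ) * ((x' / 2 : ℕ) : ℤ)

/-- the kernel of a pair `(a, b)` -/
noncomputable def Bc (a b M D l X : ℕ) (g : ℕ → ℤ) (x x' : Fin (X * 2)) : ℝ :=
  bdc a b M D l (cl a b g x x') (ps a b x x')

theorem badc_bound (a b M : ℕ) (c₀ y : ℤ) : 0 ≤ badc a b M c₀ y ∧ badc a b M c₀ y ≤ 1 := by
  unfold badc
  split_ifs <;> norm_num

theorem bdc_bound (a b M D l : ℕ) (c₀ y : ℤ) : |bdc a b M D l c₀ y| ≤ 1 := by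
  unfold bdc
  have h1 := badc_bound a b M c₀ y
  have h2 : 0 ≤ mean fun k : Fin l => badc a b M c₀ (y + D * ((k : ℕ) : ℤ)) :=
    LAM_mean_nonneg fun k => (badc_bound a b M _ _).1
  have h3 : (mean fun k : Fin l => badc a b M c₀ (y + D * ((k : ℕ) : ℤ))) ≤ 1 :=
    LAM_mean_le_one fun k => (badc_bound a b M _ _).2
  rw [abs_le]
  constructor <;> linarith [h1.1, h1.2]

theorem Bc_bound (a b M D l X : ℕ) (g : ℕ → ℤ) (x x' : Fin (X * 2)) : |Bc a b M D l X g x x'| ≤ 1 :=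
  bdc_bound _ _ _ _ _ _ _

/-! ### positions and signs -/

theorem dbl_val {X : ℕ} (p : Fin X) (t : Fin 2) : ((finProdFinEquiv (p, t) : Fin (X * 2)) : ℕ) = (t : ℕ) + 2 * (p : ℕ) := by
  simp [finProdFinEquiv]

theorem dbl_div {X : ℕ} (p : Fin X) (t : Fin 2) : ((finProdFinEquiv (p, t) : Fin (X * 2)) : ℕ) / 2 = (p : ℕ) := by
  rw [dbl_val]
  have := t.2
  omega

theorem dbl_mod {X : ℕ} (p : Fin X) (t : Fin 2) : ((finProdFinEquiv (p, t) : Fin (X * 2)) : ℕ) % 2 = (t : ℕ) := by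
  rw [dbl_val]
  have := t.2
  omega

/-- a mean over pairs of signed positions -/
theorem mean_dbl {X : ℕ} (F : Fin (X * 2) × Fin (X * 2) → ℝ) :
    mean F = mean fun t : Fin 2 × Fin 2 => mean fun z : Fin X × Fin X =>
      F (finProdFinEquiv (z.1, t.1), finProdFinEquiv (z.2, t.2)) := by
  have h1 : mean F = mean fun w : (Fin X × Fin 2) × (Fin X × Fin 2) => F (finProdFinEquiv w.1, finProdFinEquiv w.2) := by
    unfold mean
    rw [Fintype.card_congr (Equiv.prodCongr finProdFinEquiv finProdFinEquiv : (Fin X × Fin 2) × (Fin X × Fin 2) ≃ _)]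
    congr 1
    exact (Equiv.sum_comp (Equiv.prodCongr finProdFinEquiv finProdFinEquiv) F).symm
  rw [h1]
  have h2 : (mean fun w : (Fin X × Fin 2) × (Fin X × Fin 2) => F (finProdFinEquiv w.1, finProdFinEquiv w.2)) =
      mean fun w : (Fin 2 × Fin 2) × (Fin X × Fin X) => F (finProdFinEquiv (w.2.1, w.1.1), finProdFinEquiv (w.2.2, w.1.2)) := by
    let e : (Fin 2 × Fin 2) × (Fin X × Fin X) ≃ (Fin X × Fin 2) × (Fin X × Fin 2) :=
      ⟨fun w => ((w.2.1, w.1.1), (w.2.2, w.1.2)), fun w => ((w.1.2, w.2.2), (w.1.1, w.2.1)), fun _ => rfl, fun _ => rfl⟩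
    unfold mean
    rw [Fintype.card_congr e]
    congr 1
    exact (Equiv.sum_comp e fun w => F (finProdFinEquiv w.1, finProdFinEquiv w.2)).symm
  rw [h2, LAM_mean_prod]

/-- **ORD**: orthogonality of the kernels of different ratios -/
theorem ORD (hORT : Pool.Agent.FR.ORT_stmt) (a b a' b' m M D l X : ℕ) (g : ℕ → ℤ) (ha : a ≤ m) (hb : b ≤ m) (ha' : a' ≤ m)
    (hb' : b' ≤ m) (hl : 1 ≤ l) (hX : 1 ≤ X) (hD : 0 < D) (hne : (a : ℤ) * b' - a' * b ≠ 0)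
    (hdvd : ((a : ℤ) * b' - a' * b) ∣ (D : ℤ)) :
    |mean (fun z : Fin (X * 2) × Fin (X * 2) => Bc a b M D l X g z.1 z.2 * Bc a' b' M D l X g z.1 z.2)| ≤
      4 * l * D * m / X := by
  rw [mean_dbl]
  have hk : ∀ t : Fin 2 × Fin 2, |mean fun z : Fin X × Fin X =>
      Bc a b M D l X g (finProdFinEquiv (z.1, t.1)) (finProdFinEquiv (z.2, t.2)) *
        Bc a' b' M D l X g (finProdFinEquiv (z.1, t.1)) (finProdFinEquiv (z.2, t.2))| ≤ 4 * l * D * m / X := by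
    intro t
    have h1 := hORT a b a' b' m D l X (badc a b M ((a : ℤ) * g (t.1 : ℕ) - (b : ℤ) * g (t.2 : ℕ)))
      (bdc a' b' M D l ((a' : ℤ) * g (t.1 : ℕ) - (b' : ℤ) * g (t.2 : ℕ))) ha hb ha' hb' hl hX hD hne hdvd
      (fun y => by
        obtain ⟨q1, q2⟩ := badc_bound a b M ((a : ℤ) * g (t.1 : ℕ) - (b : ℤ) * g (t.2 : ℕ)) y
        rw [abs_le]
        constructor <;> linarith)
      (fun y => bdc_bound _ _ _ _ _ _ _)
    refine le_trans (le_of_eq ?_) h1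
    congr 2
    funext z
    unfold Bc cl ps
    rw [dbl_div, dbl_div, dbl_mod, dbl_mod]
    rfl
  have h2 : |mean fun t : Fin 2 × Fin 2 => mean fun z : Fin X × Fin X =>
      Bc a b M D l X g (finProdFinEquiv (z.1, t.1)) (finProdFinEquiv (z.2, t.2)) *
        Bc a' b' M D l X g (finProdFinEquiv (z.1, t.1)) (finProdFinEquiv (z.2, t.2))| ≤
      mean fun _ : Fin 2 × Fin 2 => (4 * l * D * m / X : ℝ) :=
    (PRJ_abs _).trans (LAM_mean_mono hk)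
  refine h2.trans (le_of_eq ?_)
  exact PRJ_const _

/-- **EXD**: the exceptional ratios -/
theorem EXD (hORT : Pool.Agent.FR.ORT_stmt) (hBES : BES_stmt) (m M l X n : ℕ) (g : ℕ → ℤ) (θ : ℝ) (R : Finset (ℕ × ℕ))
    (e : Fin n → Fin (X * 2) → ℝ) (hθ : 0 < θ) (hl : 1 ≤ l) (hX : 1 ≤ X)
    (hR : ∀ r ∈ R, 1 ≤ r.1 ∧ r.1 ≤ m ∧ 1 ≤ r.2 ∧ r.2 ≤ m ∧ Nat.Coprime r.1 r.2)
    (hXR : 4 * l * ((m ^ 2).factorial : ℝ) * m * #R ≤ X)
    (he : ∀ i l' : Fin n, mean (fun x => e i x * e l' x) = if i = l' then 1 else 0) :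
    ∃ E ⊆ R, (#E : ℝ) ≤ 2 * n ^ 2 / θ ^ 2 ∧ ∀ r ∈ R, r ∉ E →
      ∑ i, ∑ l', |mean (fun z : Fin (X * 2) × Fin (X * 2) =>
        e i z.1 * e l' z.2 * Bc r.1 r.2 M (m ^ 2).factorial l X g z.1 z.2)| ≤ n * θ := by
  classical
  have hX0 : (0 : ℝ) < X := by exact_mod_cast hX
  have hX2 : 0 < X * 2 := by omega
  have hne : Nonempty (Fin (X * 2) × Fin (X * 2)) := ⟨(⟨0, hX2⟩, ⟨0, hX2⟩)⟩
  let Bv : ℕ × ℕ → Fin (X * 2) × Fin (X * 2) → ℝ := fun r z => Bc r.1 r.2 M (m ^ 2).factorial l X g z.1 z.2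
  have hBv : ∀ r z, |Bv r z| ≤ 1 := fun r z => Bc_bound _ _ _ _ _ _ _ _ _
  obtain ⟨δ, hδ⟩ : ∃ δ : ℝ, δ = 4 * l * ((m ^ 2).factorial : ℝ) * m / X := ⟨_, rfl⟩
  have hδ0 : 0 ≤ δ := by rw [hδ]; positivity
  have hδR : δ * #R ≤ 1 := by
    rw [hδ, div_mul_eq_mul_div, div_le_one hX0]
    exact hXR
  have horth : ∀ r ∈ R, ∀ r' ∈ R, r ≠ r' → |mean (fun z => Bv r z * Bv r' z)| ≤ δ := by
    intro r hr r' hr' hrr
    obtain ⟨h1, h2, h3, h4, h5⟩ := hR r hr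
    obtain ⟨h1', h2', h3', h4', h5'⟩ := hR r' hr'
    have h0 : (r.1 : ℤ) * r'.2 - r'.1 * r.2 ≠ 0 := by
      intro h
      obtain ⟨h6, h7⟩ := EXC_cop _ _ _ _ h1 h5 h5' h
      exact hrr (Prod.ext h6 h7)
    rw [hδ]
    exact ORD hORT r.1 r.2 r'.1 r'.2 m M (m ^ 2).factorial l X g h2 h4 h2' h4' hl hX (Nat.factorial_pos _) h0
      (EXC_dvd _ _ _ _ m h2 h4 h2' h4' h0)
  have hsq : ∀ r ∈ R, mean (fun z => Bv r z ^ 2) ≤ 1 := by
    intro r _
    apply EXC_mean_le _ 1 zero_le_one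
    intro z
    rw [← sq_abs]
    exact pow_le_one₀ (abs_nonneg _) (hBv r z)
  have hbes : ∀ i l' : Fin n, ∑ r ∈ R, mean (fun z : Fin (X * 2) × Fin (X * 2) => e i z.1 * e l' z.2 * Bv r z) ^ 2 ≤ 2 := by
    intro i l'
    apply hBES (Fin (X * 2) × Fin (X * 2)) (ℕ × ℕ) R Bv (fun z => e i z.1 * e l' z.2) δ hδ0 hδR _ hsq horth
    have h1 : (fun z : Fin (X * 2) × Fin (X * 2) => (e i z.1 * e l' z.2) ^ 2) =
        fun z : Fin (X * 2) × Fin (X * 2) => (fun x => e i x * e i x) z.1 * (fun x => e l' x * e l' x) z.2 := by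
      funext z
      ring
    have h2 := EXC_prod (fun x => e i x * e i x) (fun x => e l' x * e l' x)
    rw [h1]
    refine le_of_eq (h2.trans ?_)
    rw [he i i, he l' l']
    simp
  let β : ℕ × ℕ → Fin n → Fin n → ℝ := fun r i l' => mean (fun z : Fin (X * 2) × Fin (X * 2) => e i z.1 * e l' z.2 * Bv r z)
  let S : ℕ × ℕ → ℝ := fun r => ∑ i, ∑ l', β r i l' ^ 2
  have hS0 : ∀ r, 0 ≤ S r := fun r => Finset.sum_nonneg fun i _ => Finset.sum_nonneg fun l' _ => sq_nonneg _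
  have hSsum : ∑ r ∈ R, S r ≤ 2 * n ^ 2 := by
    calc ∑ r ∈ R, S r = ∑ i, ∑ l', ∑ r ∈ R, β r i l' ^ 2 := by
          rw [Finset.sum_comm]
          apply Finset.sum_congr rfl
          intro i _
          rw [Finset.sum_comm]
      _ ≤ ∑ _i : Fin n, ∑ _l' : Fin n, (2 : ℝ) :=
          Finset.sum_le_sum fun i _ => Finset.sum_le_sum fun l' _ => hbes i l'
      _ = 2 * n ^ 2 := by
          simp only [Finset.sum_const, Finset.card_univ, Fintype.card_fin, nsmul_eq_mul]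
          ring
  refine ⟨R.filter fun r => θ ^ 2 < S r, Finset.filter_subset _ _, ?_, ?_⟩
  · rw [le_div_iff₀ (by positivity)]
    calc (#(R.filter fun r => θ ^ 2 < S r) : ℝ) * θ ^ 2 = ∑ _r ∈ R.filter fun r => θ ^ 2 < S r, θ ^ 2 := by
          rw [Finset.sum_const, nsmul_eq_mul]
      _ ≤ ∑ r ∈ R.filter fun r => θ ^ 2 < S r, S r :=
          Finset.sum_le_sum fun r hr => (Finset.mem_filter.1 hr).2.le
      _ ≤ ∑ r ∈ R, S r :=
          Finset.sum_le_sum_of_subset_of_nonneg (Finset.filter_subset _ _) fun r _ _ => hS0 r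
      _ ≤ 2 * n ^ 2 := hSsum
  · intro r hr hrE
    have hSr : S r ≤ θ ^ 2 := by
      by_contra h
      exact hrE (Finset.mem_filter.2 ⟨hr, not_le.1 h⟩)
    have h1 : (∑ i, ∑ l', |β r i l'|) ^ 2 ≤ (n * θ) ^ 2 := by
      have h2 := sq_sum_le_card_mul_sum_sq (s := (Finset.univ : Finset (Fin n × Fin n)))
        (f := fun q => |β r q.1 q.2|)
      rw [Fintype.sum_prod_type, Fintype.sum_prod_type, Finset.card_univ, Fintype.card_prod, Fintype.card_fin] at h2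
      simp only [sq_abs] at h2
      calc (∑ i, ∑ l', |β r i l'|) ^ 2 ≤ ((n * n : ℕ) : ℝ) * S r := h2
        _ ≤ ((n * n : ℕ) : ℝ) * θ ^ 2 := mul_le_mul_of_nonneg_left hSr (Nat.cast_nonneg _)
        _ = (n * θ) ^ 2 := by push_cast; ring
    have h3 : 0 ≤ (n : ℝ) * θ := by positivity
    exact (pow_le_pow_iff_left₀ (Finset.sum_nonneg fun i _ => Finset.sum_nonneg fun l' _ => abs_nonneg _) h3
      two_ne_zero).1 h1

open Classical in
/-- **UND**: if no pair of `R` is good then all averages of the false cases over `l` terms are large, near to `0`, in every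
class `cl` -/
theorem UND (ε : ℝ) (R : Finset (ℕ × ℕ)) (M D C : ℕ) (g : ℕ → ℤ) (hM : 0 < M) (hD : 0 < D)
    (hR : ∀ r ∈ R, ¬ GoodM ε r.1 r.2) :
    ∃ l₀ : ℕ, 1 ≤ l₀ ∧ ∀ l : ℕ, l₀ ≤ l → ∀ r ∈ R, ∀ (x x' : ℕ) (y : ℤ), |y| ≤ C * l →
      ε < mean fun k : Fin l => badc r.1 r.2 M (cl r.1 r.2 g x x') (y + D * ((k : ℕ) : ℤ)) := by
  have hq : 1 ≤ M * D := Nat.mul_pos hM hD
  have h1 : ∀ z : (ℕ × ℕ) × ℕ, ∃ T₀ : ℕ, z.1 ∈ R → ∀ T : ℕ, T₀ ≤ T → ∀ u : ℤ, |u| ≤ ((C + 1 : ℕ) : ℤ) * T →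
      (NR z.1.1 z.1.2 (M * D) T ((z.2 : ℤ) + ((M * D : ℕ) : ℤ) * u) : ℝ) < (1 - ε) * T := by
    intro z
    by_cases hz : z.1 ∈ R
    · have h2 := hR z.1 hz
      unfold GoodM at h2
      push Not at h2
      obtain ⟨T₀, h3⟩ := h2 (M * D) z.2 (C + 1) hq
      exact ⟨T₀, fun _ T hT u hu => h3 T hT u hu⟩
    · exact ⟨0, fun h => absurd h hz⟩
  choose T₀ hN using h1
  obtain ⟨G, hG⟩ : ∃ G : ℕ, G = (g 0).natAbs + (g 1).natAbs := ⟨_, rfl⟩
  have hgb : ∀ x : ℕ, |g (x % 2)| ≤ (G : ℤ) := by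
    intro x
    rcases Nat.mod_two_eq_zero_or_one x with h | h <;> rw [h, hG] <;> push_cast
    · linarith [abs_nonneg (g 1)]
    · linarith [abs_nonneg (g 0)]
  refine ⟨1 + ∑ z ∈ R ×ˢ range (M * D), T₀ z + ∑ r ∈ R, (r.1 + r.2) * G, by omega, ?_⟩
  intro l hl r hr x x' y hy
  have hl1 : 1 ≤ l := by omega
  have hl0 : (0 : ℝ) < l := by exact_mod_cast hl1
  have hrl : (r.1 + r.2) * G + 1 ≤ l := by
    have h4 : (r.1 + r.2) * G ≤ ∑ r ∈ R, (r.1 + r.2) * G :=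
      Finset.single_le_sum (f := fun r : ℕ × ℕ => (r.1 + r.2) * G) (fun _ _ => Nat.zero_le _) hr
    omega
  have hclb : |cl r.1 r.2 g x x'| ≤ ((r.1 : ℤ) + r.2) * G := by
    unfold cl
    have e1 : |(r.1 : ℤ) * g (x % 2)| ≤ r.1 * G := by
      rw [abs_mul, Nat.abs_cast]
      exact mul_le_mul_of_nonneg_left (hgb x) (Nat.cast_nonneg _)
    have e2 : |(r.2 : ℤ) * g (x' % 2)| ≤ r.2 * G := by
      rw [abs_mul, Nat.abs_cast]
      exact mul_le_mul_of_nonneg_left (hgb x') (Nat.cast_nonneg _)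
    have e3 := abs_sub (r.1 * g (x % 2) : ℤ) (r.2 * g (x' % 2))
    linarith
  obtain ⟨N, hN'⟩ : ∃ N : ℤ, N = cl r.1 r.2 g x x' + M * y := ⟨_, rfl⟩
  have hqz : (0 : ℤ) < ((M * D : ℕ) : ℤ) := by exact_mod_cast hq
  obtain ⟨c, hc⟩ : ∃ c : ℕ, (c : ℤ) = N % ((M * D : ℕ) : ℤ) :=
    ⟨(N % ((M * D : ℕ) : ℤ)).toNat, Int.toNat_of_nonneg (Int.emod_nonneg _ hqz.ne')⟩
  have hcq : c < M * D := by
    have := Int.emod_lt_of_pos N hqz
    rw [← hc] at this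
    exact_mod_cast this
  obtain ⟨u, hu⟩ : ∃ u : ℤ, u = N / ((M * D : ℕ) : ℤ) := ⟨_, rfl⟩
  have hNe : N = c + ((M * D : ℕ) : ℤ) * u := by
    rw [hc, hu]
    exact (Int.emod_add_mul_ediv N _).symm
  -- the position
  have hub : |u| ≤ ((C + 1 : ℕ) : ℤ) * l := by
    have h5 : |N| ≤ ((M * D : ℕ) : ℤ) * (((r.1 : ℤ) + r.2) * G + |y|) := by
      have hMq : (M : ℤ) ≤ ((M * D : ℕ) : ℤ) := by
        exact_mod_cast Nat.le_mul_of_pos_right M hD
      have hq1 : (1 : ℤ) ≤ ((M * D : ℕ) : ℤ) := by exact_mod_cast hq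
      have h6 : |N| ≤ ((r.1 : ℤ) + r.2) * G + M * |y| := by
        rw [hN']
        have h7 : |cl r.1 r.2 g x x' + M * y| ≤ |cl r.1 r.2 g x x'| + |(M : ℤ) * y| := abs_add_le _ _
        have h9 : |(M : ℤ) * y| = M * |y| := by
          rw [abs_mul, Nat.abs_cast]
        linarith
      have hy0 : 0 ≤ |y| := abs_nonneg y
      have hs0 : (0 : ℤ) ≤ ((r.1 : ℤ) + r.2) * G := by positivity
      nlinarith
    have h6 := UNM_quot N _ c u (((r.1 : ℤ) + r.2) * G + |y|) hqz hNe (Nat.cast_nonneg _) (by exact_mod_cast hcq) h5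
    have h7 : ((r.1 : ℤ) + r.2) * G + 1 ≤ l := by exact_mod_cast hrl
    push_cast
    linarith
  have hbad : ∀ k : ℕ, badc r.1 r.2 M (cl r.1 r.2 g x x') (y + D * (k : ℤ)) =
      1 - (if TrueCase r.1 r.2 ((c : ℤ) + ((M * D : ℕ) : ℤ) * u + ((M * D : ℕ) : ℤ) * (k : ℤ)) then (1 : ℝ) else 0) := by
    intro k
    unfold badc
    have h4 : cl r.1 r.2 g x x' + M * (y + D * (k : ℤ)) =
        (c : ℤ) + ((M * D : ℕ) : ℤ) * u + ((M * D : ℕ) : ℤ) * (k : ℤ) := by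
      rw [← hNe, hN']
      push_cast
      ring
    rw [h4]
    by_cases h5 : TrueCase r.1 r.2 ((c : ℤ) + ((M * D : ℕ) : ℤ) * u + ((M * D : ℕ) : ℤ) * (k : ℤ))
    · rw [if_pos h5, if_pos h5]; norm_num
    · rw [if_neg h5, if_neg h5]; norm_num
  have hsum : ∑ k ∈ range l, (if TrueCase r.1 r.2 ((c : ℤ) + ((M * D : ℕ) : ℤ) * u + ((M * D : ℕ) : ℤ) * (k : ℤ)) then (1 : ℝ) else 0) <
      (1 - ε) * l := by
    have hT : T₀ (r, c) ≤ l := by
      have h4 : T₀ (r, c) ≤ ∑ z ∈ R ×ˢ range (M * D), T₀ z :=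
        Finset.single_le_sum (f := T₀) (fun _ _ => Nat.zero_le _) (mem_product.2 ⟨hr, mem_range.2 hcq⟩)
      omega
    have h7 := hN (r, c) hr l hT u hub
    refine lt_of_le_of_lt (le_of_eq ?_) h7
    unfold NR
    rw [← sum_boole]
  unfold mean
  rw [Fintype.card_fin, lt_div_iff₀ hl0]
  have h9 : ∑ k : Fin l, badc r.1 r.2 M (cl r.1 r.2 g x x') (y + D * ((k : ℕ) : ℤ)) =
      ∑ k ∈ range l, badc r.1 r.2 M (cl r.1 r.2 g x x') (y + D * (k : ℤ)) :=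
    Fin.sum_univ_eq_sum_range (fun k : ℕ => badc r.1 r.2 M (cl r.1 r.2 g x x') (y + D * (k : ℤ))) l
  rw [h9, sum_congr rfl fun k _ => hbad k, sum_sub_distrib, sum_const, card_range, nsmul_eq_mul, mul_one]
  linarith

/-- **STD**: step 1 -/
theorem STD (ι : Type) [Fintype ι] [DecidableEq ι] (H X a b M D l : ℕ) (g : ℕ → ℤ) (ε : ℝ)
    (j : (ι × Fin H → Fin (X * 2)) → ι × Fin H → ℝ) (i i' : ι) (hj : ∀ ξ p, j ξ p = 0 ∨ j ξ p = 1)
    (hε : ∀ (x x' : ℕ) (y : ℤ), |y| ≤ ((a : ℤ) + b) * X →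
      ε < mean fun k : Fin l => badc a b M (cl a b g x x') (y + D * ((k : ℕ) : ℤ)))
    (htrue : ∀ (ξ : ι × Fin H → Fin (X * 2)) (m m' : Fin H), j ξ (i, m) = 1 → j ξ (i', m') = 1 →
      TrueCase a b (cl a b g (ξ (i, m)) (ξ (i', m')) + M * ps a b (ξ (i, m)) (ξ (i', m')))) :
    ε * mean (fun ξ : ι × Fin H → Fin (X * 2) =>
      mean (fun m : Fin H => j ξ (i, m)) * mean (fun m' : Fin H => j ξ (i', m'))) ≤
      -corr j i i' (Bc a b M D l X g) := by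
  classical
  unfold corr
  rw [STP_neg, STP_smul]
  refine STP_mono fun ξ => ?_
  rw [STP_prod, STP_smul, STP_neg]
  refine STP_mono fun m => ?_
  rw [STP_smul, STP_neg]
  refine STP_mono fun m' => ?_
  rcases hj ξ (i, m) with h1 | h1
  · rw [h1]
    simp
  rcases hj ξ (i', m') with h2 | h2
  · rw [h2]
    simp
  rw [h1, h2, mul_one, mul_one, one_mul]
  have h3 := htrue ξ m m' h1 h2
  have hX1 : ((ξ (i, m) : Fin (X * 2)) : ℕ) / 2 ≤ X := by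
    have := (ξ (i, m)).2
    omega
  have hX2 : ((ξ (i', m') : Fin (X * 2)) : ℕ) / 2 ≤ X := by
    have := (ξ (i', m')).2
    omega
  have h4 := hε (ξ (i, m)) (ξ (i', m')) (ps a b (ξ (i, m)) (ξ (i', m'))) (by
    unfold ps
    have e1 : ((((ξ (i, m) : Fin (X * 2)) : ℕ) / 2 : ℕ) : ℤ) ≤ X := by exact_mod_cast hX1
    have e2 : ((((ξ (i', m') : Fin (X * 2)) : ℕ) / 2 : ℕ) : ℤ) ≤ X := by exact_mod_cast hX2
    have e3 : (0 : ℤ) ≤ ((((ξ (i, m) : Fin (X * 2)) : ℕ) / 2 : ℕ) : ℤ) := Nat.cast_nonneg _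
    have e4 : (0 : ℤ) ≤ ((((ξ (i', m') : Fin (X * 2)) : ℕ) / 2 : ℕ) : ℤ) := Nat.cast_nonneg _
    have ha : (0 : ℤ) ≤ a := Nat.cast_nonneg _
    have hb : (0 : ℤ) ≤ b := Nat.cast_nonneg _
    rw [abs_le]
    constructor <;> nlinarith)
  unfold Bc bdc
  have h5 : badc a b M (cl a b g (ξ (i, m)) (ξ (i', m'))) (ps a b (ξ (i, m)) (ξ (i', m'))) = 0 := by
    unfold badc
    rw [if_pos h3]
  rw [h5]
  linarith

end Pool.Agent.DI
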