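import Pool.Agent.helper76.DI.Model

/-!
# Project DI (MP_bf63dc_nt): the assembly of the estimates
-/

set_option autoImplicit false

namespace Pool.Agent.DI

open Finset Real Pool.Agent.AT Pool.Agent.OM Pool.Agent.helper85.FC Pool.Agent.FR Pool.Agent.FM

/-- as `LamM`, for pairs of forms -/
def LamD (ε lam η : ℝ) (C : ℕ) (F : Finset ℕ) : Prop := ∃ E : Finset (ℕ × ℕ), #E ≤ C ∧ ∃ (T : Type) (_ : Fintype T) (_ : Nonempty T)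
  (A : ℕ → T → ℝ), (∀ s x, 0 ≤ A s x ∧ A s x ≤ 1) ∧ (∀ s ∈ F, 1 / 2 + 1 / 250000 - η ≤ mean (A s)) ∧
  ∀ s ∈ F, ∀ t ∈ F, s ≠ t → rp s t ∉ E → ¬ GQM ε s t → (1 - η) * mean (fun x => A s x * A t x) ≤ 4 * lam

/-- the density of the clique for the slope `v s` -/
noncomputable def LAMD_A {W : Finset ℕ} {U : Type} (Φ : Finset ℕ) (f : ↥W → U → ℝ) (s : ℕ) (z : ↥Φ × U) : ℝ :=
  if h : (z.1 : ℕ) * s ∈ W then f ⟨(z.1 : ℕ) * s, h⟩ z.2 else 0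

theorem LAMD_A_bound {W : Finset ℕ} {U : Type} (Φ : Finset ℕ) (f : ↥W → U → ℝ) (hf : ∀ w u, 0 ≤ f w u ∧ f w u ≤ 1) (s : ℕ)
    (z : ↥Φ × U) : 0 ≤ LAMD_A Φ f s z ∧ LAMD_A Φ f s z ≤ 1 := by
  unfold LAMD_A
  split_ifs with h
  · exact hf _ _
  · exact ⟨le_rfl, zero_le_one⟩

theorem LAMD_A_mean (hFOK : FOK_stmt) {U : Type} [Fintype U] [Nonempty U] (Φ W : Finset ℕ) (s : ℕ) (η α : ℝ) (hs : 0 < s)
    (hΦ : Φ.Nonempty) (hsub : Φ ⊆ W) (hα : 0 ≤ α) (hmul : ∀ v ∈ Φ, v * s ∈ W) (hcard : (#W : ℝ) ≤ (1 + η) * #Φ)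
    (f : ↥W → U → ℝ) (hf : ∀ w u, 0 ≤ f w u ∧ f w u ≤ 1) (hsum : α * #W ≤ ∑ w, mean (f w)) :
    α - η ≤ mean (LAMD_A Φ f s) := by
  classical
  set G : ℕ → ℝ := fun w => mean fun u : U => if h : w ∈ W then f ⟨w, h⟩ u else 0 with hG
  have h1 : mean (LAMD_A Φ f s) = (∑ v ∈ Φ, G (v * s)) / #Φ := by
    rw [LAM_mean_prod, ← LAM_mean_coe Φ (fun v => G (v * s))]
    rfl
  have hG1 : ∀ w ∈ W, 0 ≤ G w ∧ G w ≤ 1 := by
    intro w hw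
    constructor
    · apply LAM_mean_nonneg; intro u
      rw [dif_pos hw]; exact (hf _ _).1
    · apply LAM_mean_le_one; intro u
      rw [dif_pos hw]; exact (hf _ _).2
  have h2 : α * #W ≤ ∑ w ∈ W, G w := by
    refine hsum.trans (le_of_eq ?_)
    rw [← Finset.sum_coe_sort W G]
    apply Finset.sum_congr rfl
    intro w _
    show mean (f w) = mean fun u : U => if h : (w : ℕ) ∈ W then f ⟨w, h⟩ u else 0
    congr 1
    funext u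
    rw [dif_pos w.2]
  have h6 := (hFOK Φ W s η α G hs (Finset.card_pos.2 hΦ) hα hsub hmul hcard hG1).2 h2
  rw [h1]; exact h6

/-- from the signed positions to the pairs of forms -/
theorem LAMD_down {U : Type} [Fintype U] [Nonempty U] (Φ W : Finset ℕ) (s t H X : ℕ) (f : ↥W → U → ℝ)
    (j : (↥W × Fin H → Fin (X * 2)) → ↥W × Fin H → ℝ) (η₁ η lam : ℝ) (hΦ : Φ.Nonempty) (hpos : ∀ v ∈ Φ, 0 < v)
    (hs : ∀ v ∈ Φ, v * s ∈ W) (ht : ∀ v ∈ Φ, v * t ∈ W) (hst : s ≠ t) (hη : η₁ ≤ η)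
    (hf : ∀ w u, 0 ≤ f w u ∧ f w u ≤ 1)
    (hfj : ∀ w w', w ≠ w' → (1 - η₁) / 4 * mean (fun u => f w u * f w' u) ≤
      mean (fun ξ : ↥W × Fin H → Fin (X * 2) => mean (fun m : Fin H => j ξ (w, m)) * mean (fun m' : Fin H => j ξ (w', m'))))
    (hpl : mean (fun z => LAM_A Φ j s z * LAM_A Φ j t z) ≤ lam) :
    (1 - η) * mean (fun x => LAMD_A Φ f s x * LAMD_A Φ f t x) ≤ 4 * lam := by
  classical
  have h1 : (1 - η₁) / 4 * mean (fun x => LAMD_A Φ f s x * LAMD_A Φ f t x) ≤ lam := by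
    refine le_trans ?_ hpl
    rw [LAM_mean_prod, LAM_mean_prod, ← LAM_mean_const_mul]
    refine LAM_mean_mono fun v => ?_
    have h2 := hfj ⟨v * s, hs v v.2⟩ ⟨v * t, ht v v.2⟩ (by
      intro h
      have h1 : (v : ℕ) * s = v * t := congrArg Subtype.val h
      exact hst (Nat.eq_of_mul_eq_mul_left (hpos v v.2) h1))
    refine le_trans (le_of_eq ?_) (h2.trans (le_of_eq ?_))
    · congr 2
      funext u
      unfold LAMD_A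
      show (if h : (v : ℕ) * s ∈ W then f ⟨(v : ℕ) * s, h⟩ u else 0) * (if h : (v : ℕ) * t ∈ W then f ⟨(v : ℕ) * t, h⟩ u else 0) = _
      rw [dif_pos (hs v v.2), dif_pos (ht v v.2)]
    · congr 1
      funext ξ
      unfold LAM_A
      have h6 : ∀ (u : ℕ) (hu : (v : ℕ) * u ∈ W), (mean fun m : Fin H => if h : (v : ℕ) * u ∈ W then j ξ (⟨(v : ℕ) * u, h⟩, m) else 0) =
          mean fun m : Fin H => j ξ (⟨(v : ℕ) * u, hu⟩, m) := by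
        intro u hu
        congr 1
        funext m
        rw [dif_pos hu]
      show _ = (mean fun m : Fin H => if h : (v : ℕ) * s ∈ W then j ξ (⟨(v : ℕ) * s, h⟩, m) else 0) *
        (mean fun m : Fin H => if h : (v : ℕ) * t ∈ W then j ξ (⟨(v : ℕ) * t, h⟩, m) else 0)
      rw [h6 s (hs v v.2), h6 t (ht v v.2)]
  have h3 : 0 ≤ mean (fun x => LAMD_A Φ f s x * LAMD_A Φ f t x) :=
    LAM_mean_nonneg fun x => mul_nonneg (LAMD_A_bound Φ f hf s x).1 (LAMD_A_bound Φ f hf t x).1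
  have h4 : (η - η₁) * mean (fun x => LAMD_A Φ f s x * LAMD_A Φ f t x) ≥ 0 := mul_nonneg (by linarith) h3
  linarith

/-- the estimate for one pair `s ≠ t` -/
theorem LAMD_pair (hCOR : COR_stmt) (Φ W : Finset ℕ) (s t a b H X M D l n : ℕ) (g : ℕ → ℤ) (ε lam κ η θ : ℝ)
    (hΦ : Φ.Nonempty) (hpos : ∀ v ∈ Φ, 0 < v) (hs : ∀ v ∈ Φ, v * s ∈ W) (ht : ∀ v ∈ Φ, v * t ∈ W) (hst : s ≠ t)
    (ha : a = t / Nat.gcd s t) (hb : b = s / Nat.gcd s t) (hε : 0 < ε) (hκ : 0 < κ) (hη : 0 ≤ η)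
    (hH : 1 ≤ H) (hX : 1 ≤ X) (hl : 1 ≤ l) (K : Fin (X * 2) → Fin (X * 2) → ℝ) (e : Fin n → Fin (X * 2) → ℝ) (hEig : Eig K κ e)
    (j : (↥W × Fin H → Fin (X * 2)) → ↥W × Fin H → ℝ) (hj : ∀ ξ p, j ξ p = 0 ∨ j ξ p = 1)
    (hKs : ∀ x y, |mean (fun v : ↥Φ => ker j ⟨v * s, hs v v.2⟩ x y) - K x y| ≤ η)
    (hKt : ∀ x y, |mean (fun v : ↥Φ => ker j ⟨v * t, ht v v.2⟩ x y) - K x y| ≤ η)
    (hTC : ∀ (ξ : ↥W × Fin H → Fin (X * 2)) (w w' : ↥W) (m m' : Fin H), w ≠ w' → j ξ (w, m) = 1 → j ξ (w', m') = 1 →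
      TrueCase ((w' : ℕ) / Nat.gcd w w') ((w : ℕ) / Nat.gcd w w')
        (cl ((w' : ℕ) / Nat.gcd w w') ((w : ℕ) / Nat.gcd w w') g (ξ (w, m)) (ξ (w', m')) +
          M * ps ((w' : ℕ) / Nat.gcd w w') ((w : ℕ) / Nat.gcd w w') (ξ (w, m)) (ξ (w', m'))))
    (hUN : ∀ (x x' : ℕ) (y : ℤ), |y| ≤ ((a : ℤ) + b) * X → ε < mean fun k : Fin l => badc a b M (cl a b g x x') (y + D * ((k : ℕ) : ℤ)))
    (hE : ∑ i, ∑ l', |mean (fun z : Fin (X * 2) × Fin (X * 2) => e i z.1 * e l' z.2 * Bc a b M D l X g z.1 z.2)| ≤ θ)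
    (hfin : θ + 2 * √(κ + (1 + n / κ) ^ 4 * (η + 1 / H + 1 / √H)) ≤ ε * lam) :
    mean (fun z => LAM_A Φ j s z * LAM_A Φ j t z) ≤ lam := by
  classical
  have hj' : ∀ ξ p, 0 ≤ j ξ p ∧ j ξ p ≤ 1 := by
    intro ξ p
    rcases hj ξ p with h | h <;> rw [h] <;> norm_num
  have : Nonempty ↥Φ := hΦ.to_subtype
  set p : ↥Φ → ↥W := fun v => ⟨v * s, hs v v.2⟩ with hp
  set p' : ↥Φ → ↥W := fun v => ⟨v * t, ht v v.2⟩ with hp'
  have hne : ∀ v, p v ≠ p' v := by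
    intro v h
    have h1 : (v : ℕ) * s = v * t := congrArg Subtype.val h
    exact hst (Nat.eq_of_mul_eq_mul_left (hpos v v.2) h1)
  have hc := hCOR ↥W ↥Φ H (X * 2) n j p p' K κ η e (Bc a b M D l X g) hH (by omega) hj' hne hκ hη hKs hKt hEig (Bc_bound a b M D l X g)
  have h1 : ∀ v : ↥Φ, ε * mean (fun ξ : ↥W × Fin H → Fin (X * 2) => LAM_A Φ j s (v, ξ) * LAM_A Φ j t (v, ξ)) ≤
      -corr j (p v) (p' v) (Bc a b M D l X g) := by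
    intro v
    have h2 := STD ↥W H X a b M D l g ε j (p v) (p' v) hj hUN (by
      intro ξ m m' h1 h2
      have h3 := hTC ξ (p v) (p' v) m m' (hne v) h1 h2
      have h4 : ((p' v : ↥W) : ℕ) / Nat.gcd (p v : ℕ) (p' v : ℕ) = a := by
        show (v : ℕ) * t / Nat.gcd (v * s) (v * t) = a
        rw [ha, Nat.gcd_comm, LAM_gcd _ _ _ (hpos v v.2), Nat.gcd_comm]
      have h5 : ((p v : ↥W) : ℕ) / Nat.gcd (p v : ℕ) (p' v : ℕ) = b := by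
        show (v : ℕ) * s / Nat.gcd (v * s) (v * t) = b
        rw [hb, LAM_gcd _ _ _ (hpos v v.2)]
      rw [h4, h5] at h3
      exact h3)
    refine le_trans (le_of_eq ?_) h2
    congr 1
    unfold mean
    congr 1
    apply Finset.sum_congr rfl
    intro ξ _
    unfold LAM_A
    have h6 : ∀ (u : ℕ) (hu : (v : ℕ) * u ∈ W), (mean fun m : Fin H => if h : (v : ℕ) * u ∈ W then j ξ (⟨(v : ℕ) * u, h⟩, m) else 0) =
        mean fun m : Fin H => j ξ (⟨(v : ℕ) * u, hu⟩, m) := by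
      intro u hu
      congr 1
      funext m
      rw [dif_pos hu]
    show (mean fun m : Fin H => if h : (v : ℕ) * s ∈ W then j ξ (⟨(v : ℕ) * s, h⟩, m) else 0) *
      (mean fun m : Fin H => if h : (v : ℕ) * t ∈ W then j ξ (⟨(v : ℕ) * t, h⟩, m) else 0) = _
    rw [h6 s (hs v v.2), h6 t (ht v v.2)]
    rfl
  have h7 : ε * mean (fun z => LAM_A Φ j s z * LAM_A Φ j t z) ≤ -mean (fun v => corr j (p v) (p' v) (Bc a b M D l X g)) := by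
    rw [LAM_mean_prod, ← LAM_mean_const_mul, ← LAM_mean_neg]
    exact LAM_mean_mono h1
  have h8 := neg_le_abs (mean (fun v => corr j (p v) (p' v) (Bc a b M D l X g)))
  have h9 : ε * mean (fun z => LAM_A Φ j s z * LAM_A Φ j t z) ≤ ε * lam := by linarith
  exact le_of_mul_le_mul_left h9 hε


/-- the theorem with explicit parameters -/
theorem LAMD_gen (hKBD : KBD_stmt) (hSPE : SPE_stmt) (hCOR : COR_stmt) (hORT : Pool.Agent.FR.ORT_stmt) (hBES : BES_stmt) (hFOL : FOL_stmt) (hFOK : FOK_stmt)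
    (hQ : ∀ k : ℕ, 1 ≤ k → Qk k) (hPRT : PRT_stmt) (hTC : ∀ K : ℕ, 1 ≤ K → ¬ Pool.Agent.AL.TwoClusters K)
    (ε lam κ θ : ℝ) (N C : ℕ) (hε : 0 < ε) (hlam : 0 < lam) (hκdef : κ = (ε * lam / 16) ^ 2) (hN : 1 / κ ^ 2 ≤ (N : ℝ))
    (hθ : 0 < θ) (hNθ : (N : ℝ) * θ ≤ ε * lam / 4) (hC : 2 * (N : ℝ) ^ 2 / θ ^ 2 ≤ C) :
    ∀ (F : Finset ℕ) (η : ℝ), (∀ s ∈ F, 0 < s) → 0 < η → LamD ε lam η C F := by
  classical
  have hκ : 0 < κ := by rw [hκdef]; positivity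
  have hNpos : (0 : ℝ) ≤ N := Nat.cast_nonneg _
  intro F η hF hη
  -- parameters
  obtain ⟨m, hmdef⟩ : ∃ m : ℕ, m = F.sup id := ⟨_, rfl⟩
  have hm : ∀ s ∈ F, s ≤ m := by
    intro s hs
    rw [hmdef]
    exact Finset.le_sup (f := id) hs
  obtain ⟨q, hqdef⟩ : ∃ q : ℝ, q = (1 + (N : ℝ) / κ) ^ 4 := ⟨_, rfl⟩
  have hq : 1 ≤ q := by
    rw [hqdef]
    apply one_le_pow₀
    have : 0 ≤ (N : ℝ) / κ := by positivity
    linarith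
  obtain ⟨c, hcdef⟩ : ∃ c : ℝ, c = κ / (2 * q) := ⟨_, rfl⟩
  have hc : 0 < c := by rw [hcdef]; positivity
  have hcq : q * (2 * c) = κ := by
    rw [hcdef]
    field_simp
  obtain ⟨η₁, hη₁def⟩ : ∃ η₁ : ℝ, η₁ = min (min (η / 2) c) (1 / 4) := ⟨_, rfl⟩
  have hη₁ : 0 < η₁ := by
    rw [hη₁def]
    exact lt_min (lt_min (by linarith) hc) (by norm_num)
  have hη₁a : η₁ ≤ η / 2 := by rw [hη₁def]; exact (min_le_left _ _).trans (min_le_left _ _)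
  have hη₁b : η₁ ≤ c := by rw [hη₁def]; exact (min_le_left _ _).trans (min_le_right _ _)
  have hη₁c : η₁ ≤ 1 / 4 := by rw [hη₁def]; exact min_le_right _ _
  obtain ⟨H, hH, hHc⟩ := LAM_H c hc
  obtain ⟨Φ, hΦ, hΦpos, hΦcard⟩ := hFOL F η₁ hF hη₁
  obtain ⟨W, hWdef⟩ : ∃ W : Finset ℕ, W = Φ ∪ (Φ ×ˢ F).image (fun z => z.1 * z.2) := ⟨_, rfl⟩
  have hsub : Φ ⊆ W := by rw [hWdef]; exact Finset.subset_union_left
  have hmul : ∀ s ∈ F, ∀ v ∈ Φ, v * s ∈ W := by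
    intro s hs v hv
    rw [hWdef, Finset.mem_union, Finset.mem_image]
    exact Or.inr ⟨(v, s), Finset.mem_product.2 ⟨hv, hs⟩, rfl⟩
  have hWcard : (#W : ℝ) ≤ (1 + η₁) * #Φ := by rw [hWdef]; exact hΦcard
  have hWne : W.Nonempty := hΦ.mono hsub
  have hWpos : ∀ w ∈ W, 0 < w := by
    intro w hw
    rw [hWdef, Finset.mem_union, Finset.mem_image] at hw
    rcases hw with hw | ⟨z, hz, rfl⟩
    · exact hΦpos w hw
    · rw [Finset.mem_product] at hz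
      exact Nat.mul_pos (hΦpos _ hz.1) (hF _ hz.2)
  obtain ⟨M, X₀, g, hM, hmod⟩ := MODD hQ hPRT hTC W H η₁ hWne hWpos hH hη₁
  obtain ⟨R, hRdef⟩ : ∃ R : Finset (ℕ × ℕ), R = {r ∈ (F ×ˢ F).image (fun p => rp p.1 p.2) | ¬ GoodM ε r.1 r.2} := ⟨_, rfl⟩
  have hRng : ∀ r ∈ R, ¬ GoodM ε r.1 r.2 := by
    intro r hr
    rw [hRdef, Finset.mem_filter] at hr
    exact hr.2
  have hRm : ∀ r ∈ R, 1 ≤ r.1 ∧ r.1 ≤ m ∧ 1 ≤ r.2 ∧ r.2 ≤ m ∧ Nat.Coprime r.1 r.2 := by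
    intro r hr
    rw [hRdef, Finset.mem_filter, Finset.mem_image] at hr
    obtain ⟨⟨z, hz, rfl⟩, -⟩ := hr
    rw [Finset.mem_product] at hz
    have hz1 := hF _ hz.1
    have hz2 := hF _ hz.2
    have hg : 0 < Nat.gcd z.1 z.2 := Nat.gcd_pos_of_pos_left _ hz1
    unfold rp
    refine ⟨Nat.div_pos (Nat.le_of_dvd hz1 (Nat.gcd_dvd_left _ _)) hg, (Nat.div_le_self _ _).trans (hm _ hz.1),
      Nat.div_pos (Nat.le_of_dvd hz2 (Nat.gcd_dvd_right _ _)) hg, (Nat.div_le_self _ _).trans (hm _ hz.2),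
      Nat.coprime_div_gcd_div_gcd hg⟩
  obtain ⟨Q, hQdef⟩ : ∃ Q : ℕ, Q = 4 * (m ^ 2).factorial * m * #R + 1 := ⟨_, rfl⟩
  have hQ1 : 1 ≤ Q := by rw [hQdef]; exact Nat.succ_pos _
  obtain ⟨l₀, hl₀, hun⟩ := UND ε R M (m ^ 2).factorial (2 * m * Q) g hM (Nat.factorial_pos _) hRng
  obtain ⟨l, hldef⟩ : ∃ l : ℕ, l = l₀ + X₀ := ⟨_, rfl⟩
  have hl : 1 ≤ l := by omega
  have hl' : l₀ ≤ l := by omega
  obtain ⟨X, hXdef⟩ : ∃ X : ℕ, X = l * Q := ⟨_, rfl⟩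
  have hX : 1 ≤ X := by rw [hXdef]; exact Nat.mul_pos hl hQ1
  have hXX : X₀ ≤ X := by
    calc X₀ ≤ l := by omega
      _ = l * 1 := by ring
      _ ≤ l * Q := Nat.mul_le_mul_left _ hQ1
      _ = X := hXdef.symm
  have hXb : 4 * l * ((m ^ 2).factorial : ℝ) * m * #R ≤ X := by
    rw [hXdef, hQdef]
    push_cast
    have : (0 : ℝ) ≤ l := Nat.cast_nonneg _
    linarith
  obtain ⟨j, U, hUf, hUn, f, hj, hTCj, hf, hsum, hfj⟩ := hmod X hXX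
  have hj' : ∀ ξ p, 0 ≤ j ξ p ∧ j ξ p ≤ 1 := by
    intro ξ p
    rcases hj ξ p with h | h <;> rw [h] <;> norm_num
  -- the kernel
  have hX2 : 1 ≤ X * 2 := by omega
  obtain ⟨K, hKdef⟩ : ∃ K : Fin (X * 2) → Fin (X * 2) → ℝ, K = fun x y => mean (fun v : ↥Φ => ker j ⟨v, hsub v.2⟩ x y) := ⟨_, rfl⟩
  have hK : ∀ x y, 0 ≤ K x y ∧ K x y ≤ 1 ∧ K x y = K y x := by
    intro x y
    rw [hKdef]
    refine ⟨LAM_mean_nonneg fun v => (hKBD ↥W H (X * 2) j _ hH hX2 hj' x y).1, LAM_mean_le_one fun v => (hKBD ↥W H (X * 2) j _ hH hX2 hj' x y).2.1, ?_⟩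
    show mean (fun v : ↥Φ => ker j ⟨v, hsub v.2⟩ x y) = mean (fun v : ↥Φ => ker j ⟨v, hsub v.2⟩ y x)
    congr 1
    funext v
    exact (hKBD ↥W H (X * 2) j _ hH hX2 hj' x y).2.2
  obtain ⟨n, e, hn, hEig⟩ := hSPE (X * 2) K κ hX2 hκ hK
  have hnN : (n : ℝ) ≤ N := hn.trans hN
  obtain ⟨E₀, hE₀sub, hE₀card, hE₀⟩ := EXD hORT hBES m M l X n g θ R e hθ hl hX hRm hXb hEig.1
  have hKs : ∀ s (hs : s ∈ F), ∀ x y, |mean (fun v : ↥Φ => ker j ⟨v * s, hmul s hs v v.2⟩ x y) - K x y| ≤ η₁ := by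
    intro s hs x y
    rw [hKdef]
    exact LAM_ker hKBD hFOK Φ W s H (X * 2) η₁ (hF s hs) hΦ hsub (hmul s hs) hWcard hH hX2 j hj' x y
  -- the final estimate
  have hfin : (n : ℝ) * θ + 2 * √(κ + (1 + (n : ℝ) / κ) ^ 4 * (η₁ + 1 / H + 1 / √H)) ≤ ε * lam := by
    have h1 : (1 + (n : ℝ) / κ) ^ 4 ≤ q := by
      rw [hqdef]
      have h2 : (n : ℝ) / κ ≤ (N : ℝ) / κ := div_le_div_of_nonneg_right hnN hκ.le
      have h3 : 0 ≤ (n : ℝ) / κ := by positivity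
      gcongr
    have h2 : η₁ + 1 / (H : ℝ) + 1 / √(H : ℝ) ≤ 2 * c := by linarith
    have h3 : 0 ≤ η₁ + 1 / (H : ℝ) + 1 / √(H : ℝ) := by positivity
    have h4 : (1 + (n : ℝ) / κ) ^ 4 * (η₁ + 1 / H + 1 / √H) ≤ κ := by
      calc (1 + (n : ℝ) / κ) ^ 4 * (η₁ + 1 / H + 1 / √H) ≤ q * (2 * c) := by gcongr
        _ = κ := hcq
    have h5 := LAM_sqrt ε lam κ hε hlam hκdef _ (show κ + (1 + (n : ℝ) / κ) ^ 4 * (η₁ + 1 / H + 1 / √H) ≤ 2 * κ by linarith)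
    have h6 : (n : ℝ) * θ ≤ N * θ := by gcongr
    have h7 : 0 ≤ ε * lam := by positivity
    linarith
  -- the exceptional ratios
  have hXne : Nonempty (Fin (X * 2)) := ⟨⟨0, hX2⟩⟩
  have hΦne : Nonempty ↥Φ := hΦ.to_subtype
  refine ⟨E₀.image Prod.swap, ?_, ↥Φ × U, inferInstance, inferInstance, LAMD_A Φ f, ?_, ?_, ?_⟩
  · have h1 : (#(E₀.image Prod.swap) : ℝ) ≤ (C : ℝ) := by
      calc (#(E₀.image Prod.swap) : ℝ) ≤ #E₀ := by exact_mod_cast Finset.card_image_le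
        _ ≤ 2 * (n : ℝ) ^ 2 / θ ^ 2 := hE₀card
        _ ≤ 2 * (N : ℝ) ^ 2 / θ ^ 2 := by gcongr
        _ ≤ _ := hC
    exact_mod_cast h1
  · intro s z
    exact LAMD_A_bound Φ f hf s z
  · intro s hs
    have h1 := LAMD_A_mean hFOK Φ W s η₁ (1 / 2 + 1 / 250000 - η₁) (hF s hs) hΦ hsub (by linarith) (hmul s hs) hWcard f hf hsum
    linarith
  · intro s hs t ht hst hrE hGQ
    have hg : Nat.gcd t s = Nat.gcd s t := Nat.gcd_comm _ _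
    have hnot : ¬ GoodM ε (t / Nat.gcd s t) (s / Nat.gcd s t) := fun h => hGQ (GSM ε _ _ h)
    have hrR : (t / Nat.gcd s t, s / Nat.gcd s t) ∈ R := by
      rw [hRdef, Finset.mem_filter, Finset.mem_image]
      refine ⟨⟨(t, s), Finset.mem_product.2 ⟨ht, hs⟩, ?_⟩, hnot⟩
      show (t / Nat.gcd t s, s / Nat.gcd t s) = _
      rw [hg]
    have hrE₀ : (t / Nat.gcd s t, s / Nat.gcd s t) ∉ E₀ := by
      intro h
      apply hrE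
      rw [Finset.mem_image]
      exact ⟨_, h, rfl⟩
    obtain ⟨a, ha⟩ : ∃ a : ℕ, a = t / Nat.gcd s t := ⟨_, rfl⟩
    obtain ⟨b, hb⟩ : ∃ b : ℕ, b = s / Nat.gcd s t := ⟨_, rfl⟩
    obtain ⟨D, hD⟩ : ∃ D : ℕ, D = (m ^ 2).factorial := ⟨_, rfl⟩
    rw [← ha, ← hb] at hrR hrE₀
    have hE' := hE₀ (a, b) hrR hrE₀
    have hun' : ∀ (x x' : ℕ) (y : ℤ), |y| ≤ ((a : ℤ) + b) * X → ε < mean fun k : Fin l => badc a b M (cl a b g x x') (y + (m ^ 2).factorial * ((k : ℕ) : ℤ)) := by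
      intro x x' y hy
      refine hun l hl' (a, b) hrR x x' y (hy.trans ?_)
      have ham : (a : ℤ) ≤ m := by exact_mod_cast (hRm (a, b) hrR).2.1
      have hbm : (b : ℤ) ≤ m := by exact_mod_cast (hRm (a, b) hrR).2.2.2.1
      have hX0 : (0 : ℤ) ≤ X := by positivity
      calc ((a : ℤ) + b) * X ≤ (m + m) * X := by gcongr
        _ = ((2 * m * Q : ℕ) : ℤ) * l := by rw [hXdef]; push_cast; ring
    rw [← hD] at hun' hE'
    have hpl := LAMD_pair hCOR Φ W s t a b H X M D l n g ε lam κ η₁ (n * θ) hΦ hΦpos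
      (hmul s hs) (hmul t ht) hst ha hb hε hκ hη₁.le hH hX hl K e hEig j hj (hKs s hs) (hKs t ht) hTCj hun' hE' hfin
    exact LAMD_down Φ W s t H X f j η₁ η lam hΦ hΦpos (hmul s hs) (hmul t ht) hst (by linarith) hf hfj hpl

/-- the number of exceptional ratios is at most `2^76 (ε lam)^(-18)` -/
theorem LAMD (hKBD : KBD_stmt) (hSPE : SPE_stmt) (hCOR : COR_stmt) (hORT : Pool.Agent.FR.ORT_stmt) (hBES : BES_stmt) (hFOL : FOL_stmt) (hFOK : FOK_stmt)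
    (hQ : ∀ k : ℕ, 1 ≤ k → Qk k) (hPRT : PRT_stmt) (hTC : ∀ K : ℕ, 1 ≤ K → ¬ Pool.Agent.AL.TwoClusters K)
    (ε lam : ℝ) (C : ℕ) (hε : 0 < ε) (hlam : 0 < lam) (h1 : ε * lam ≤ 1) (hC : 2 ^ 76 / (ε * lam) ^ 18 ≤ (C : ℝ)) :
    ∀ (F : Finset ℕ) (η : ℝ), (∀ s ∈ F, 0 < s) → 0 < η → LamD ε lam η C F := by
  obtain ⟨u, hu⟩ : ∃ u : ℝ, u = ε * lam := ⟨_, rfl⟩
  have hu0 : 0 < u := by rw [hu]; positivity
  rw [← hu] at h1 hC
  obtain ⟨κ, hκdef⟩ : ∃ κ : ℝ, κ = (u / 16) ^ 2 := ⟨_, rfl⟩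
  have hκ : 0 < κ := by rw [hκdef]; positivity
  have hκ1 : κ ≤ 1 := by
    rw [hκdef]
    nlinarith
  obtain ⟨N, hNdef⟩ : ∃ N : ℕ, N = ⌈1 / κ ^ 2⌉₊ := ⟨_, rfl⟩
  have hN : 1 / κ ^ 2 ≤ (N : ℝ) := by rw [hNdef]; exact Nat.le_ceil _
  have hk2 : 1 ≤ 1 / κ ^ 2 := by
    rw [le_div_iff₀ (by positivity)]
    nlinarith
  have hN2 : (N : ℝ) ≤ 2 / κ ^ 2 := by
    have h3 : (N : ℝ) < 1 / κ ^ 2 + 1 := by rw [hNdef]; exact Nat.ceil_lt_add_one (by positivity)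
    have h4 : 2 / κ ^ 2 = 1 / κ ^ 2 + 1 / κ ^ 2 := by ring
    linarith
  have hN1 : (1 : ℝ) ≤ N := hk2.trans hN
  obtain ⟨θ, hθdef⟩ : ∃ θ : ℝ, θ = u * κ ^ 2 / 16 := ⟨_, rfl⟩
  have hθ : 0 < θ := by rw [hθdef]; positivity
  have hNθ : (N : ℝ) * θ ≤ ε * lam / 4 := by
    rw [← hu, hθdef]
    calc (N : ℝ) * (u * κ ^ 2 / 16) ≤ 2 / κ ^ 2 * (u * κ ^ 2 / 16) := by gcongr
      _ = u / 8 := by field_simp; ring
      _ ≤ u / 4 := by linarith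
  refine LAMD_gen hKBD hSPE hCOR hORT hBES hFOL hFOK hQ hPRT hTC ε lam κ θ N C hε hlam (by rw [← hu]; exact hκdef)
    hN hθ hNθ ?_
  calc 2 * (N : ℝ) ^ 2 / θ ^ 2 ≤ 2 * (2 / κ ^ 2) ^ 2 / θ ^ 2 := by gcongr
    _ = 2 ^ 75 / u ^ 18 := by
      rw [hθdef, hκdef]
      field_simp
      norm_num
    _ ≤ 2 ^ 76 / u ^ 18 := by gcongr <;> norm_num
    _ ≤ C := hC

end Pool.Agent.DI
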