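import Pool.Agent.helper76.DI.Basic
import Pool.Agent.helper7.AL.SpecM
import Pool.Agent.helper5.AL.PIG
import Pool.Agent.helper89.AL.HST
import Pool.Agent.helper30.FR.MOD

/-!
# Project DI (MP_bf63dc_nt): the model
-/

set_option autoImplicit false

namespace Pool.Agent.DI

open Finset Real Pool.Agent.AT Pool.Agent.OM Pool.Agent.helper85.FC Pool.Agent.FR Pool.Agent.FM

/-! ### general lemmas -/

theorem MDD_pick {A B : Type} [Fintype A] [Fintype B] [Nonempty B] (P : A → B → Prop) [∀ x y, Decidable (P x y)] (η : ℝ)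
    (h : ∀ x, (#{y : B | P x y} : ℝ) ≤ η * Fintype.card B) : ∃ y : B, (#{x : A | P x y} : ℝ) ≤ η * Fintype.card A := by
  classical
  by_contra hc
  push Not at hc
  have h1 := Finset.sum_card_bipartiteAbove_eq_sum_card_bipartiteBelow (s := (Finset.univ : Finset A)) (t := (Finset.univ : Finset B)) P
  have h2 : ∑ x : A, (#{y : B | P x y} : ℝ) = ∑ y : B, (#{x : A | P x y} : ℝ) := by exact_mod_cast h1
  have h3 : ∑ x : A, (#{y : B | P x y} : ℝ) ≤ ∑ _x : A, η * Fintype.card B := Finset.sum_le_sum fun x _ => h x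
  have h4 : ∑ _y : B, η * Fintype.card A < ∑ y : B, (#{x : A | P x y} : ℝ) :=
    Finset.sum_lt_sum_of_nonempty Finset.univ_nonempty fun y _ => hc y
  rw [Finset.sum_const, Finset.card_univ, nsmul_eq_mul] at h3 h4
  have h5 : (Fintype.card A : ℝ) * (η * Fintype.card B) = Fintype.card B * (η * Fintype.card A) := by ring
  linarith

theorem MDD_marg {P : Type} [Fintype P] [DecidableEq P] {X : ℕ} (hX : 1 ≤ X) (p q : P) (hpq : p ≠ q) (F G : Fin X → ℝ) :
    mean (fun t : P → Fin X => F (t p) * G (t q)) = mean F * mean G := by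
  rw [ERR_coord hX p]
  have h1 : (fun ξ : P → Fin X => mean fun z : Fin X => F (Function.update ξ p z p) * G (Function.update ξ p z q)) =
      fun ξ => mean F * G (ξ q) := by
    funext ξ
    have h2 : (fun z : Fin X => F (Function.update ξ p z p) * G (Function.update ξ p z q)) = fun z => G (ξ q) * F z := by
      funext z
      rw [Function.update_self, Function.update_of_ne hpq.symm]
      ring
    rw [h2, LAM_mean_const_mul]
    ring
  rw [h1, LAM_mean_const_mul, MAI_marg hX q G]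

theorem MDD_adm {k : ℕ} (s : Fin k → ℕ) (P : ℕ) (hP : ∀ p : ℕ, p.Prime → p ≤ k → p ∣ P)
    (hsP : ∀ i, s i ∣ P) (r y : Fin k → ℤ) (hr : ∀ i, IsCoprime (r i) (P : ℤ)) :
    Adm (fun i => (s i, r i + (P : ℤ) * y i)) := by
  classical
  intro p hp
  by_cases hpP : p ∣ P
  · refine ⟨0, ?_⟩
    intro i h
    simp only [Nat.cast_zero, mul_zero, zero_add] at h
    have hPz : (p : ℤ) ∣ (P : ℤ) := Int.natCast_dvd_natCast.mpr hpP
    have h2 : (p : ℤ) ∣ (P : ℤ) * y i := hPz.mul_right _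
    have h3 : (p : ℤ) ∣ r i := by
      have := dvd_sub h h2
      simpa using this
    have h4 := (hr i).isUnit_of_dvd' h3 hPz
    exact (Nat.prime_iff_prime_int.mp hp).not_isUnit h4
  · have hpk : k < p := by
      by_contra h
      exact hpP (hP p hp (by omega))
    by_contra hcon
    have hcon' : ∀ n : ℕ, ∃ i : Fin k, (p : ℤ) ∣ (s i : ℤ) * n + (r i + (P : ℤ) * y i) := by
      intro n
      by_contra h
      apply hcon
      refine ⟨n, ?_⟩
      intro i hi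
      exact h ⟨i, hi⟩
    choose g hg using hcon'
    have hcard : #(Finset.range p) ≤ #(Finset.univ : Finset (Fin k)) := by
      apply Finset.card_le_card_of_injOn g
      · intro n _
        exact Finset.mem_coe.mpr (Finset.mem_univ _)
      · intro n hn n' hn' hgg
        have a1 := hg n
        have a2 := hg n'
        rw [← hgg] at a2
        have a3 : (p : ℤ) ∣ (s (g n) : ℤ) * ((n : ℤ) - n') := by
          have := dvd_sub a1 a2
          have e : (s (g n) : ℤ) * n + (r (g n) + (P : ℤ) * y (g n)) - ((s (g n) : ℤ) * n' + (r (g n) + (P : ℤ) * y (g n))) =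
            (s (g n) : ℤ) * ((n : ℤ) - n') := by ring
          rwa [e] at this
        rcases (Nat.prime_iff_prime_int.mp hp).dvd_or_dvd a3 with h | h
        · exact absurd ((Int.natCast_dvd_natCast.mp h).trans (hsP (g n))) hpP
        · have b1 : n < p := Finset.mem_range.mp (Finset.mem_coe.mp hn)
          have b2 : n' < p := Finset.mem_range.mp (Finset.mem_coe.mp hn')
          have b3 : |(n : ℤ) - n'| < p := by
            rw [abs_lt]; constructor <;> omega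
          have b4 := Int.eq_zero_of_abs_lt_dvd h b3
          omega
    simp only [Finset.card_range, Finset.card_univ, Fintype.card_fin] at hcard
    omega

theorem MDD_alg (w w' : ℕ) (P r r' y y' : ℤ) (hw : 0 < w) :
    ((w' : ℤ) * (r + P * y) - w * (r' + P * y')) / ((Nat.gcd w w' : ℕ) : ℤ) =
      (((w' / Nat.gcd w w' : ℕ) : ℤ) * r - ((w / Nat.gcd w w' : ℕ) : ℤ) * r') +
        P * (((w' / Nat.gcd w w' : ℕ) : ℤ) * y - ((w / Nat.gcd w w' : ℕ) : ℤ) * y') := by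
  have hg : 0 < Nat.gcd w w' := Nat.gcd_pos_of_pos_left _ hw
  obtain ⟨u, hu⟩ := Nat.gcd_dvd_left w w'
  obtain ⟨u', hu'⟩ := Nat.gcd_dvd_right w w'
  have h1 : w / Nat.gcd w w' = u := Nat.div_eq_of_eq_mul_right hg hu
  have h2 : w' / Nat.gcd w w' = u' := Nat.div_eq_of_eq_mul_right hg hu'
  rw [h1, h2]
  have h3 : (w : ℤ) = ((Nat.gcd w w' : ℕ) : ℤ) * u := by exact_mod_cast hu
  have h4 : (w' : ℤ) = ((Nat.gcd w w' : ℕ) : ℤ) * u' := by exact_mod_cast hu'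
  have h5 : ((Nat.gcd w w' : ℕ) : ℤ) ≠ 0 := by exact_mod_cast hg.ne'
  apply Int.ediv_eq_of_eq_mul_right h5
  have h6 : (w' : ℤ) * (r + P * y) - w * (r' + P * y') =
    (((Nat.gcd w w' : ℕ) : ℤ) * u') * (r + P * y) - (((Nat.gcd w w' : ℕ) : ℤ) * u) * (r' + P * y') := by
    rw [← h3, ← h4]
  rw [h6]
  ring

/-- the two clusters -/
theorem MDD_z (hTC : ∀ K : ℕ, 1 ≤ K → ¬ Pool.Agent.AL.TwoClusters K) (L M : ℕ) (hL : 1 ≤ L) (hM : 0 < M) (hM2 : 2 ∣ M) :
    ∃ (u₀ : ℤ) (z : Fin 2 → Fin L → ℤ), Even u₀ ∧ (∀ t, Function.Injective (z t)) ∧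
      ∀ i j, ¬ TrueCase 1 1 (u₀ + M * z 1 j - M * z 0 i) ∧ u₀ + M * z 1 j - M * z 0 i ≠ 0 := by
  obtain ⟨X, Y, u₀, hX, hY, hu, hXd, hYd, hbad⟩ := Pool.Agent.AL.PIG L M hL hM hM2
    (hTC (L * M) (Nat.mul_pos hL hM))
  have hMz : (M : ℤ) ≠ 0 := by exact_mod_cast hM.ne'
  let eX := Finset.equivFinOfCardEq hX
  let eY := Finset.equivFinOfCardEq hY
  have hx : ∀ i : Fin L, (M : ℤ) * (((eX.symm i : ↥X) : ℤ) / M) = ((eX.symm i : ↥X) : ℤ) := fun i =>
    Int.mul_ediv_cancel' (hXd _ (eX.symm i).2)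
  have hy : ∀ i : Fin L, (M : ℤ) * ((((eY.symm i : ↥Y) : ℤ) - u₀) / M) = ((eY.symm i : ↥Y) : ℤ) - u₀ := fun i =>
    Int.mul_ediv_cancel' (hYd _ (eY.symm i).2)
  refine ⟨u₀, fun t i => if t = 0 then ((eX.symm i : ↥X) : ℤ) / M else (((eY.symm i : ↥Y) : ℤ) - u₀) / M, hu, ?_, ?_⟩
  · intro t i i' h
    by_cases ht : t = 0
    · simp only [ht, if_true] at h
      have h1 : ((eX.symm i : ↥X) : ℤ) = ((eX.symm i' : ↥X) : ℤ) := by
        rw [← hx i, ← hx i', h]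
      exact eX.symm.injective (Subtype.ext h1)
    · simp only [ht, if_false] at h
      have h1 : ((eY.symm i : ↥Y) : ℤ) = ((eY.symm i' : ↥Y) : ℤ) := by
        have h2 : ((eY.symm i : ↥Y) : ℤ) - u₀ = ((eY.symm i' : ↥Y) : ℤ) - u₀ := by
          rw [← hy i, ← hy i', h]
        linarith
      exact eY.symm.injective (Subtype.ext h1)
  · intro i j
    have h1 := hbad _ (eX.symm i).2 _ (eY.symm j).2
    have h2 : u₀ + M * (if (1 : Fin 2) = 0 then ((eX.symm j : ↥X) : ℤ) / M else (((eY.symm j : ↥Y) : ℤ) - u₀) / M) -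
        M * (if (0 : Fin 2) = 0 then ((eX.symm i : ↥X) : ℤ) / M else (((eY.symm i : ↥Y) : ℤ) - u₀) / M) =
        ((eY.symm j : ↥Y) : ℤ) - ((eX.symm i : ↥X) : ℤ) := by
      rw [if_neg (by decide), if_pos rfl, hx, hy]
      ring
    rw [h2]
    exact ⟨h1.2.2, h1.1⟩

open Classical in
/-- the cliques -/
theorem MDD_core (hPRT : PRT_stmt) (W : Finset ℕ) (H L M S X1 k : ℕ) (η C δ : ℝ) (g : ℕ → ℤ) (u₀ : ℤ) (z : Fin 2 → Fin L → ℤ)
    (hWpos : ∀ w ∈ W, 0 < w) (hX1 : 1 ≤ X1) (hL : 1 ≤ L) (hk : k = #W * H * 2)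
    (hP : ∀ p : ℕ, p.Prime → p ≤ k → p ∣ M) (hM : 0 < M) (hWM : ∀ w ∈ W, w ∣ M)
    (hg0 : IsCoprime (g 0) (M : ℤ)) (hg1 : IsCoprime (g 1) (M : ℤ)) (hg : g 1 = g 0 + u₀)
    (hz : ∀ t, Function.Injective (z t))
    (hbad : ∀ i j, ¬ TrueCase 1 1 (u₀ + M * z 1 j - M * z 0 i) ∧ u₀ + M * z 1 j - M * z 0 i ≠ 0)
    (hQ : ∀ (F : Fin k → Finset (ℕ × ℤ)) (L : ℕ), 1 ≤ L → (∀ i, L ≤ #(F i)) → (∀ i, ∀ f ∈ F i, 0 < f.1) →
      (#{f ∈ Fintype.piFinset F | Adm f ∧ ¬ Many f} : ℝ) ≤ C * (∏ i, (#(F i) : ℝ)) * (L : ℝ) ^ (-δ))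
    (hη : C * (L : ℝ) ^ (-δ) ≤ η) :
    ∃ (c : (↥W × Fin H) × Fin 2 → Fin L) (a : (↥W × Fin H → Fin X1) → (↥W × Fin H) × Fin 2 → ℝ),
      (∀ u q, a u q = 0 ∨ a u q = 1) ∧ (∀ u p, a u (p, 0) + a u (p, 1) ≤ 1) ∧
      (∀ (u : ↥W × Fin H → Fin X1) (q q' : (↥W × Fin H) × Fin 2), q.1.1 ≠ q'.1.1 → a u q = 1 → a u q' = 1 →
        TrueCase ((q'.1.1 : ℕ) / Nat.gcd q.1.1 q'.1.1) ((q.1.1 : ℕ) / Nat.gcd q.1.1 q'.1.1)
          (((((q'.1.1 : ℕ) / Nat.gcd q.1.1 q'.1.1 : ℕ) : ℤ) * g (q.2 : ℕ) -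
              (((q.1.1 : ℕ) / Nat.gcd q.1.1 q'.1.1 : ℕ) : ℤ) * g (q'.2 : ℕ)) +
            M * ((((q'.1.1 : ℕ) / Nat.gcd q.1.1 q'.1.1 : ℕ) : ℤ) * (((u q.1 : ℕ) : ℤ) + S + z q.2 (c q)) -
              (((q.1.1 : ℕ) / Nat.gcd q.1.1 q'.1.1 : ℕ) : ℤ) * (((u q'.1 : ℕ) : ℤ) + S + z q'.2 (c q'))))) ∧
      (1 / 4 + 1 / 500000) * (1 - η) * k ≤ mean (fun u => ∑ q, a u q) := by
  classical
  have hcard : Fintype.card ((↥W × Fin H) × Fin 2) = k := by
    rw [hk]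
    simp
  have hMz : (M : ℤ) ≠ 0 := by exact_mod_cast hM.ne'
  let e : (↥W × Fin H) × Fin 2 ≃ Fin k := Fintype.equivFinOfCardEq hcard
  let s : Fin k → ℕ := fun i => ((e.symm i).1.1 : ℕ)
  have hs : ∀ i, 0 < s i := fun i => hWpos _ (e.symm i).1.1.2
  have hsM : ∀ i, s i ∣ M := fun i => hWM _ (e.symm i).1.1.2
  have hr : ∀ i, IsCoprime (g ((e.symm i).2 : ℕ)) (M : ℤ) := by
    intro i
    rcases Fin.exists_fin_two.1 ⟨(e.symm i).2, rfl⟩ with h | h
    · rw [h]; exact hg0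
    · rw [h]; exact hg1
  let f : (↥W × Fin H → Fin X1) → ((↥W × Fin H) × Fin 2 → Fin L) → Fin k → ℕ × ℤ := fun u c i =>
    (s i, g ((e.symm i).2 : ℕ) + (M : ℤ) * (((u (e.symm i).1 : ℕ) : ℤ) + S + z (e.symm i).2 (c (e.symm i))))
  have hadm : ∀ u c, Adm (f u c) := fun u c => MDD_adm s M hP hsM _ _ hr
  have hfe : ∀ u c q, f u c (e q) = ((q.1.1 : ℕ), g (q.2 : ℕ) + (M : ℤ) * (((u q.1 : ℕ) : ℤ) + S + z q.2 (c q))) := by
    intro u c q
    show (((e.symm (e q)).1.1 : ℕ), g ((e.symm (e q)).2 : ℕ) +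
      (M : ℤ) * (((u (e.symm (e q)).1 : ℕ) : ℤ) + S + z (e.symm (e q)).2 (c (e.symm (e q))))) = _
    rw [Equiv.symm_apply_apply]
  have hLne : Nonempty (Fin L) := ⟨⟨0, hL⟩⟩
  -- few bad choices for every sample
  have hstep : ∀ u : ↥W × Fin H → Fin X1, (#{c : (↥W × Fin H) × Fin 2 → Fin L | ¬ Many (f u c)} : ℝ) ≤
      η * Fintype.card ((↥W × Fin H) × Fin 2 → Fin L) := by
    intro u
    let F : Fin k → Finset (ℕ × ℤ) := fun i => (Finset.univ : Finset (Fin L)).image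
      (fun l : Fin L => (s i, g ((e.symm i).2 : ℕ) + (M : ℤ) * (((u (e.symm i).1 : ℕ) : ℤ) + S + z (e.symm i).2 l)))
    have hF : ∀ i, #(F i) = L := by
      intro i
      show #((Finset.univ : Finset (Fin L)).image
        (fun l : Fin L => (s i, g ((e.symm i).2 : ℕ) + (M : ℤ) * (((u (e.symm i).1 : ℕ) : ℤ) + S + z (e.symm i).2 l)))) = L
      rw [Finset.card_image_of_injective]
      · simp
      · intro x y hxy
        have h1 : g ((e.symm i).2 : ℕ) + (M : ℤ) * (((u (e.symm i).1 : ℕ) : ℤ) + S + z (e.symm i).2 x) =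
            g ((e.symm i).2 : ℕ) + (M : ℤ) * (((u (e.symm i).1 : ℕ) : ℤ) + S + z (e.symm i).2 y) := congrArg Prod.snd hxy
        have h2 := mul_left_cancel₀ hMz (add_left_cancel h1)
        exact hz _ (add_left_cancel h2)
    have h1 := hQ F L hL (fun i => (hF i).ge) (by
      intro i v hv
      obtain ⟨x, -, rfl⟩ := Finset.mem_image.mp hv
      exact hs i)
    have h2 : (∏ i, (#(F i) : ℝ)) = (L : ℝ) ^ k := by
      simp [hF]
    rw [h2] at h1
    have hc2 : Fintype.card ((↥W × Fin H) × Fin 2 → Fin L) = L ^ k := by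
      rw [Fintype.card_fun, Fintype.card_fin, hcard]
    have hle : (#{c : (↥W × Fin H) × Fin 2 → Fin L | ¬ Many (f u c)} : ℝ) ≤ (#{f ∈ Fintype.piFinset F | Adm f ∧ ¬ Many f} : ℝ) := by
      apply Nat.cast_le.mpr
      apply Finset.card_le_card_of_injOn (f u)
      · intro c hc
        have hc' := Finset.mem_filter.mp (Finset.mem_coe.mp hc)
        apply Finset.mem_coe.mpr
        rw [Finset.mem_filter]
        refine ⟨?_, hadm u c, hc'.2⟩
        rw [Fintype.mem_piFinset]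
        intro i
        exact Finset.mem_image.mpr ⟨c (e.symm i), Finset.mem_univ _, rfl⟩
      · intro c _ d _ hcd
        funext q
        have h3 := congrFun hcd (e q)
        rw [hfe, hfe] at h3
        have h4 := add_left_cancel (congrArg Prod.snd h3)
        exact hz _ (add_left_cancel (mul_left_cancel₀ hMz h4))
    refine hle.trans (h1.trans ?_)
    rw [hc2]
    push_cast
    have h3 : (0 : ℝ) ≤ (L : ℝ) ^ k := by positivity
    calc C * (L : ℝ) ^ k * (L : ℝ) ^ (-δ) = C * (L : ℝ) ^ (-δ) * (L : ℝ) ^ k := by ring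
      _ ≤ η * (L : ℝ) ^ k := mul_le_mul_of_nonneg_right hη h3
  obtain ⟨c, hc⟩ := MDD_pick (fun u c => ¬ Many (f u c)) η hstep
  have hch : ∀ u : ↥W × Fin H → Fin X1, ∃ I : Finset (Fin k), MOD_Good (f u c) I ∧
      (Many (f u c) → (1 / 4 + 1 / 500000 : ℝ) * k < #I) := by
    intro u
    by_cases hx : Many (f u c)
    · obtain ⟨I, hI, hI2⟩ := MOD_many _ hx
      exact ⟨I, hI2, fun _ => hI⟩
    · refine ⟨∅, ?_, fun h => absurd h hx⟩
      intro N
      exact ⟨N, le_refl _, fun i hi => absurd hi (Finset.notMem_empty i)⟩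
  choose J hJ1 hJ2 using hch
  have hmem : ∀ u q, (if e q ∈ J u then (1 : ℝ) else 0) = 1 → e q ∈ J u := by
    intro u q h
    by_contra h1
    rw [if_neg h1] at h
    norm_num at h
  have hpair : ∀ u (q q' : (↥W × Fin H) × Fin 2), f u c (e q) ≠ f u c (e q') → e q ∈ J u → e q' ∈ J u →
      Pair (f u c (e q)) (f u c (e q')) := by
    intro u q q' hne h1 h2
    refine hPRT _ _ (hs _) (hs _) hne ?_ ?_
    · intro p hp
      obtain ⟨n, hn⟩ := hadm u c p hp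
      refine ⟨n, ?_⟩
      intro l
      fin_cases l
      · exact hn _
      · exact hn _
    · intro N
      obtain ⟨n, hn, hpr⟩ := hJ1 u N
      exact ⟨n, hn, hpr _ h1, hpr _ h2⟩
  refine ⟨c, fun u q => if e q ∈ J u then 1 else 0, ?_, ?_, ?_, ?_⟩
  · intro u q
    show (if e q ∈ J u then (1 : ℝ) else 0) = 0 ∨ (if e q ∈ J u then (1 : ℝ) else 0) = 1
    by_cases h : e q ∈ J u
    · right; rw [if_pos h]
    · left; rw [if_neg h]
  · intro u p
    show (if e (p, 0) ∈ J u then (1 : ℝ) else 0) + (if e (p, 1) ∈ J u then (1 : ℝ) else 0) ≤ 1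
    by_cases h0 : e (p, 0) ∈ J u
    · by_cases h1 : e (p, 1) ∈ J u
      · exfalso
        have hw : 0 < ((p.1 : ↥W) : ℕ) := hWpos _ p.1.2
        have hdif : (g 1 + (M : ℤ) * (((u p : ℕ) : ℤ) + S + z 1 (c (p, 1)))) - (g 0 + (M : ℤ) * (((u p : ℕ) : ℤ) + S + z 0 (c (p, 0)))) =
            u₀ + M * z 1 (c (p, 1)) - M * z 0 (c (p, 0)) := by
          rw [hg]
          ring
        have hb := hbad (c (p, 0)) (c (p, 1))
        have hne : f u c (e (p, 1)) ≠ f u c (e (p, 0)) := by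
          intro h
          rw [hfe, hfe] at h
          have h2 : g 1 + (M : ℤ) * (((u p : ℕ) : ℤ) + S + z 1 (c (p, 1))) = g 0 + (M : ℤ) * (((u p : ℕ) : ℤ) + S + z 0 (c (p, 0))) :=
            congrArg Prod.snd h
          rw [h2, sub_self] at hdif
          exact hb.2 hdif.symm
        have h2 := hpair u (p, 1) (p, 0) hne h1 h0
        rw [hfe, hfe] at h2
        have h3 : TrueCase (((p.1 : ↥W) : ℕ) / Nat.gcd ((p.1 : ↥W) : ℕ) ((p.1 : ↥W) : ℕ)) (((p.1 : ↥W) : ℕ) / Nat.gcd ((p.1 : ↥W) : ℕ) ((p.1 : ↥W) : ℕ))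
          (((((p.1 : ↥W) : ℕ) : ℤ) * (g 1 + (M : ℤ) * (((u p : ℕ) : ℤ) + S + z 1 (c (p, 1)))) -
            (((p.1 : ↥W) : ℕ) : ℤ) * (g 0 + (M : ℤ) * (((u p : ℕ) : ℤ) + S + z 0 (c (p, 0))))) / ((Nat.gcd ((p.1 : ↥W) : ℕ) ((p.1 : ↥W) : ℕ) : ℕ) : ℤ)) := h2
        rw [Nat.gcd_self, Nat.div_self hw, ← mul_sub, hdif, Int.mul_ediv_cancel_left _ (by exact_mod_cast hw.ne')] at h3
        exact hb.1 h3
      · rw [if_pos h0, if_neg h1]; norm_num
    · by_cases h1 : e (p, 1) ∈ J u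
      · rw [if_neg h0, if_pos h1]; norm_num
      · rw [if_neg h0, if_neg h1]; norm_num
  · intro u q q' hqq h1 h2
    have hm1 := hmem u q h1
    have hm2 := hmem u q' h2
    have hne : f u c (e q) ≠ f u c (e q') := by
      intro h
      rw [hfe, hfe] at h
      exact hqq (Subtype.ext (congrArg Prod.fst h))
    have h3 := hpair u q q' hne hm1 hm2
    rw [hfe, hfe] at h3
    have h4 : TrueCase ((q'.1.1 : ℕ) / Nat.gcd q.1.1 q'.1.1) ((q.1.1 : ℕ) / Nat.gcd q.1.1 q'.1.1)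
      ((((q'.1.1 : ℕ) : ℤ) * (g (q.2 : ℕ) + (M : ℤ) * (((u q.1 : ℕ) : ℤ) + S + z q.2 (c q))) -
        ((q.1.1 : ℕ) : ℤ) * (g (q'.2 : ℕ) + (M : ℤ) * (((u q'.1 : ℕ) : ℤ) + S + z q'.2 (c q')))) / ((Nat.gcd q.1.1 q'.1.1 : ℕ) : ℤ)) := h3
    rw [MDD_alg (q.1.1 : ℕ) (q'.1.1 : ℕ) _ _ _ _ _ (hWpos _ q.1.1.2)] at h4
    exact h4
  · have hsum : ∀ u : ↥W × Fin H → Fin X1, (∑ q, (if e q ∈ J u then (1 : ℝ) else 0)) = #(J u) := by
      intro u
      rw [Equiv.sum_comp e (fun i => if i ∈ J u then (1 : ℝ) else 0)]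
      rw [Finset.sum_ite_mem, Finset.univ_inter]
      simp
    obtain ⟨N, hN⟩ : ∃ N : ℝ, N = (Fintype.card (↥W × Fin H → Fin X1) : ℝ) := ⟨_, rfl⟩
    have hX1ne : Nonempty (Fin X1) := ⟨⟨0, hX1⟩⟩
    have hN0 : 0 < N := by
      rw [hN]
      exact_mod_cast Fintype.card_pos
    have htot : (#{u : ↥W × Fin H → Fin X1 | Many (f u c)} : ℝ) + #{u : ↥W × Fin H → Fin X1 | ¬ Many (f u c)} = N := by
      have h3 := Finset.card_filter_add_card_filter_not (s := (Finset.univ : Finset (↥W × Fin H → Fin X1))) (fun u => Many (f u c))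
      rw [Finset.card_univ] at h3
      rw [hN]
      exact_mod_cast h3
    have hlow : (1 / 4 + 1 / 500000 : ℝ) * k * (#{u : ↥W × Fin H → Fin X1 | Many (f u c)} : ℝ) ≤ ∑ u : ↥W × Fin H → Fin X1, (#(J u) : ℝ) := by
      calc (1 / 4 + 1 / 500000 : ℝ) * k * (#{u : ↥W × Fin H → Fin X1 | Many (f u c)} : ℝ)
          = ∑ u : ↥W × Fin H → Fin X1 with Many (f u c), (1 / 4 + 1 / 500000 : ℝ) * k := by
            rw [Finset.sum_const, nsmul_eq_mul]; ring
        _ ≤ ∑ u : ↥W × Fin H → Fin X1 with Many (f u c), (#(J u) : ℝ) := by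
            apply Finset.sum_le_sum
            intro u hu
            exact (hJ2 u (Finset.mem_filter.mp hu).2).le
        _ ≤ ∑ u : ↥W × Fin H → Fin X1, (#(J u) : ℝ) := by
            apply Finset.sum_le_sum_of_subset_of_nonneg (Finset.filter_subset _ _)
            intro u _ _
            positivity
    unfold mean
    have hsum2 : (∑ u : ↥W × Fin H → Fin X1, ∑ q, (if e q ∈ J u then (1 : ℝ) else 0)) = ∑ u : ↥W × Fin H → Fin X1, (#(J u) : ℝ) :=
      Finset.sum_congr rfl (fun u _ => hsum u)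
    rw [hsum2, ← hN, le_div_iff₀ hN0]
    refine le_trans ?_ hlow
    have hc' : (#{u : ↥W × Fin H → Fin X1 | ¬ Many (f u c)} : ℝ) ≤ η * N := by
      rw [hN]
      exact hc
    have h5 : (1 - η) * N ≤ (#{u : ↥W × Fin H → Fin X1 | Many (f u c)} : ℝ) := by linarith
    have hkk : (0 : ℝ) ≤ (1 / 4 + 1 / 500000) * k := by positivity
    calc (1 / 4 + 1 / 500000) * (1 - η) * k * N = (1 / 4 + 1 / 500000) * k * ((1 - η) * N) := by ring
      _ ≤ _ := mul_le_mul_of_nonneg_left h5 hkk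

/-! ### signed positions -/

/-- the signed positions of a sample with signs -/
def th {ι : Type} {X1 L : ℕ} (X S : ℕ) (hX : 0 < X) (z : Fin 2 → Fin L → ℤ) (c : ι × Fin 2 → Fin L)
    (w : (ι → Fin X1) × (ι → Fin 2)) (p : ι) : Fin (X * 2) :=
  finProdFinEquiv (⟨(((w.1 p : ℕ) : ℤ) + S + z (w.2 p) (c (p, w.2 p))).toNat % X, Nat.mod_lt _ hX⟩, w.2 p)

theorem th_mod {ι : Type} {X1 L : ℕ} (X S : ℕ) (hX : 0 < X) (z : Fin 2 → Fin L → ℤ) (c : ι × Fin 2 → Fin L)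
    (w : (ι → Fin X1) × (ι → Fin 2)) (p : ι) : (th X S hX z c w p : ℕ) % 2 = (w.2 p : ℕ) :=
  dbl_mod _ _

theorem th_div {ι : Type} {X1 L : ℕ} (X S : ℕ) (hX : 0 < X) (z : Fin 2 → Fin L → ℤ) (c : ι × Fin 2 → Fin L)
    (hXX : X = X1 + 2 * S) (hz : ∀ t i, |z t i| ≤ (S : ℤ))
    (w : (ι → Fin X1) × (ι → Fin 2)) (p : ι) :
    (((th X S hX z c w p : ℕ) / 2 : ℕ) : ℤ) = ((w.1 p : ℕ) : ℤ) + S + z (w.2 p) (c (p, w.2 p)) := by
  unfold th
  rw [dbl_div]
  have h1 := abs_le.1 (hz (w.2 p) (c (p, w.2 p)))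
  have h2 := (w.1 p).2
  have h3 : 0 ≤ ((w.1 p : ℕ) : ℤ) + S + z (w.2 p) (c (p, w.2 p)) := by
    have : (0 : ℤ) ≤ ((w.1 p : ℕ) : ℤ) := Nat.cast_nonneg _
    linarith [h1.1]
  have h4 : (((w.1 p : ℕ) : ℤ) + S + z (w.2 p) (c (p, w.2 p))).toNat < X := by
    zify
    rw [Int.toNat_of_nonneg h3, hXX]
    push_cast
    have : ((w.1 p : ℕ) : ℤ) < X1 := by exact_mod_cast h2
    linarith [h1.2]
  show (((((w.1 p : ℕ) : ℤ) + S + z (w.2 p) (c (p, w.2 p))).toNat % X : ℕ) : ℤ) = _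
  rw [Nat.mod_eq_of_lt h4, Int.toNat_of_nonneg h3]

theorem th_inj {ι : Type} {X1 L : ℕ} (X S : ℕ) (hX : 0 < X) (z : Fin 2 → Fin L → ℤ) (c : ι × Fin 2 → Fin L)
    (hXX : X = X1 + 2 * S) (hz : ∀ t i, |z t i| ≤ (S : ℤ)) :
    Function.Injective (th (X1 := X1) X S hX z c) := by
  intro w w' h
  have h2 : w.2 = w'.2 := by
    funext p
    have h3 := th_mod X S hX z c w p
    have h4 := th_mod X S hX z c w' p
    rw [h] at h3
    exact Fin.ext (h3.symm.trans h4)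
  have h1 : w.1 = w'.1 := by
    funext p
    have h3 := th_div X S hX z c hXX hz w p
    have h4 := th_div X S hX z c hXX hz w' p
    rw [h, h4, h2] at h3
    have h5 : ((w'.1 p : ℕ) : ℤ) = ((w.1 p : ℕ) : ℤ) := by linarith
    exact Fin.ext (by exact_mod_cast h5.symm)
  exact Prod.ext h1 h2

theorem MDD_two (F : Fin 2 → ℝ) : mean F = (F 0 + F 1) / 2 := by
  unfold mean
  rw [Fin.sum_univ_two, Fintype.card_fin]
  norm_num

theorem MDD_t {ι : Type} [Fintype ι] [DecidableEq ι] {H : ℕ} (A B : Fin H → Fin 2 → ℝ) (i i' : ι) (hi : i ≠ i') :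
    mean (fun t : ι × Fin H → Fin 2 => mean (fun m : Fin H => A m (t (i, m))) * mean (fun m' : Fin H => B m' (t (i', m')))) =
      mean (fun m => A m 0 + A m 1) * mean (fun m' => B m' 0 + B m' 1) / 4 := by
  have h1 : (fun t : ι × Fin H → Fin 2 => mean (fun m : Fin H => A m (t (i, m))) * mean (fun m' : Fin H => B m' (t (i', m')))) =
      fun t => mean fun m : Fin H => mean fun m' : Fin H => A m (t (i, m)) * B m' (t (i', m')) := by
    funext t
    rw [STP_prod]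
  rw [h1, ERR_comm]
  have h2 : (fun m : Fin H => mean fun t : ι × Fin H → Fin 2 => mean fun m' : Fin H => A m (t (i, m)) * B m' (t (i', m'))) =
      fun m => mean fun m' : Fin H => ((A m 0 + A m 1) / 2) * ((B m' 0 + B m' 1) / 2) := by
    funext m
    rw [ERR_comm]
    congr 1
    funext m'
    rw [MDD_marg (by norm_num) (i, m) (i', m') (fun h => hi (congrArg Prod.fst h)) (A m) (B m'), MDD_two, MDD_two]
  rw [h2, ← STP_prod]
  have h3 : ∀ C : Fin H → Fin 2 → ℝ, mean (fun m => (C m 0 + C m 1) / 2) = mean (fun m => C m 0 + C m 1) / 2 := by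
    intro C
    have h4 : (fun m => (C m 0 + C m 1) / 2) = fun m => (1 / 2) * (C m 0 + C m 1) := by
      funext m
      ring
    rw [h4, LAM_mean_const_mul]
    ring
  rw [h3 A, h3 B]
  ring

theorem MDD_tr {ι : Type} [Fintype ι] [DecidableEq ι] (H L S X1 X : ℕ) (z : Fin 2 → Fin L → ℤ)
    (c : (ι × Fin H) × Fin 2 → Fin L) (a : (ι × Fin H → Fin X1) → (ι × Fin H) × Fin 2 → ℝ)
    (ha : ∀ u q, a u q = 0 ∨ a u q = 1) (hX1 : 1 ≤ X1) (hXX : X = X1 + 2 * S) (hz : ∀ t i, |z t i| ≤ (S : ℤ)) :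
    ∃ j : (ι × Fin H → Fin (X * 2)) → ι × Fin H → ℝ, (∀ ξ p, j ξ p = 0 ∨ j ξ p = 1) ∧
      (∀ (ξ : ι × Fin H → Fin (X * 2)) (p p' : ι × Fin H), j ξ p = 1 → j ξ p' = 1 →
        ∃ (u : ι × Fin H → Fin X1) (t : ι × Fin H → Fin 2), a u (p, t p) = 1 ∧ a u (p', t p') = 1 ∧
          ∀ p, (ξ p : ℕ) % 2 = (t p : ℕ) ∧ (((ξ p : ℕ) / 2 : ℕ) : ℤ) = ((u p : ℕ) : ℤ) + S + z (t p) (c (p, t p))) ∧
      ∀ i i' : ι, i ≠ i' → ((X1 : ℝ) / X) ^ (Fintype.card ι * H) / 4 *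
          mean (fun u : ι × Fin H → Fin X1 => mean (fun m : Fin H => a u ((i, m), 0) + a u ((i, m), 1)) *
            mean (fun m' : Fin H => a u ((i', m'), 0) + a u ((i', m'), 1))) ≤
        mean (fun ξ : ι × Fin H → Fin (X * 2) => mean (fun m : Fin H => j ξ (i, m)) * mean (fun m' : Fin H => j ξ (i', m'))) := by
  classical
  have hX : 0 < X := by omega
  let Θ := th (ι := ι × Fin H) (X1 := X1) X S hX z c
  have hΘ : Function.Injective Θ := th_inj X S hX z c hXX hz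
  let j : (ι × Fin H → Fin (X * 2)) → ι × Fin H → ℝ := fun ξ p =>
    if h : ∃ w, Θ w = ξ then a h.choose.1 (p, h.choose.2 p) else 0
  have hj0 : ∀ ξ p, j ξ p = 0 ∨ j ξ p = 1 := by
    intro ξ p
    show (if h : ∃ w, Θ w = ξ then a h.choose.1 (p, h.choose.2 p) else 0) = 0 ∨ (if h : ∃ w, Θ w = ξ then a h.choose.1 (p, h.choose.2 p) else 0) = 1
    split_ifs with h
    · exact ha _ _
    · left; rfl
  have hjΘ : ∀ w p, j (Θ w) p = a w.1 (p, w.2 p) := by
    intro w p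
    have h : ∃ w', Θ w' = Θ w := ⟨w, rfl⟩
    show (if h : ∃ w', Θ w' = Θ w then a h.choose.1 (p, h.choose.2 p) else 0) = _
    rw [dif_pos h, hΘ h.choose_spec]
  refine ⟨j, hj0, ?_, ?_⟩
  · intro ξ p p' h1 h2
    by_cases h : ∃ w, Θ w = ξ
    · obtain ⟨w, hw⟩ := h
      rw [← hw, hjΘ] at h1 h2
      refine ⟨w.1, w.2, h1, h2, fun p => ?_⟩
      rw [← hw]
      exact ⟨th_mod X S hX z c w p, th_div X S hX z c hXX hz w p⟩
    · have h3 : j ξ p = 0 := by
        show (if h : ∃ w, Θ w = ξ then a h.choose.1 (p, h.choose.2 p) else 0) = 0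
        rw [dif_neg h]
      rw [h3] at h1
      norm_num at h1
  · intro i i' hi
    let G : (ι × Fin H → Fin (X * 2)) → ℝ := fun ξ => mean (fun m : Fin H => j ξ (i, m)) * mean (fun m' : Fin H => j ξ (i', m'))
    have hG0 : ∀ ξ, 0 ≤ G ξ := by
      intro ξ
      refine mul_nonneg (LAM_mean_nonneg fun m => ?_) (LAM_mean_nonneg fun m => ?_)
      · rcases hj0 ξ (i, m) with h | h <;> rw [h] <;> norm_num
      · rcases hj0 ξ (i', m) with h | h <;> rw [h] <;> norm_num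
    have h1 : ∑ w, G (Θ w) ≤ ∑ ξ, G ξ := by
      rw [← Finset.sum_image (s := Finset.univ) (g := Θ) (f := G) (fun x _ y _ h => hΘ h)]
      exact Finset.sum_le_sum_of_subset_of_nonneg (Finset.subset_univ _) fun ξ _ _ => hG0 ξ
    have h2 : mean (fun w => G (Θ w)) = mean (fun u : ι × Fin H → Fin X1 => mean (fun m : Fin H => a u ((i, m), 0) + a u ((i, m), 1)) *
            mean (fun m' : Fin H => a u ((i', m'), 0) + a u ((i', m'), 1))) / 4 := by
      rw [LAM_mean_prod]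
      have h3 : (fun u : ι × Fin H → Fin X1 => mean fun t : ι × Fin H → Fin 2 => G (Θ (u, t))) =
          fun u => (1 / 4) * (mean (fun m : Fin H => a u ((i, m), 0) + a u ((i, m), 1)) *
            mean (fun m' : Fin H => a u ((i', m'), 0) + a u ((i', m'), 1))) := by
        funext u
        have h4 : (fun t : ι × Fin H → Fin 2 => G (Θ (u, t))) = fun t =>
            mean (fun m : Fin H => a u ((i, m), t (i, m))) * mean (fun m' : Fin H => a u ((i', m'), t (i', m'))) := by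
          funext t
          show mean (fun m : Fin H => j (Θ (u, t)) (i, m)) * mean (fun m' : Fin H => j (Θ (u, t)) (i', m')) = _
          simp only [hjΘ]
        rw [h4, MDD_t (fun m s => a u ((i, m), s)) (fun m s => a u ((i', m), s)) i i' hi]
        ring
      rw [h3, LAM_mean_const_mul]
      ring
    have hn : Fintype.card (ι × Fin H) = Fintype.card ι * H := by simp
    obtain ⟨n, hn'⟩ : ∃ n : ℕ, n = Fintype.card ι * H := ⟨_, rfl⟩
    have hX0 : (0 : ℝ) < X := by exact_mod_cast hX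
    have hX10 : (0 : ℝ) < X1 := by exact_mod_cast hX1
    have hc1 : (Fintype.card (ι × Fin H → Fin (X * 2)) : ℝ) = (X : ℝ) ^ n * 2 ^ n := by
      rw [Fintype.card_fun, Fintype.card_fin, hn, ← hn']
      push_cast
      rw [mul_pow]
    have hc2 : (Fintype.card ((ι × Fin H → Fin X1) × (ι × Fin H → Fin 2)) : ℝ) = (X1 : ℝ) ^ n * 2 ^ n := by
      rw [Fintype.card_prod, Fintype.card_fun, Fintype.card_fun, Fintype.card_fin, Fintype.card_fin, hn, ← hn']
      push_cast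
      ring
    rw [← hn']
    have h5 : ∑ w, G (Θ w) = (X1 : ℝ) ^ n * 2 ^ n * mean (fun w => G (Θ w)) := by
      unfold mean
      rw [hc2]
      field_simp
    have h6 : mean G = (∑ ξ, G ξ) / ((X : ℝ) ^ n * 2 ^ n) := by
      unfold mean
      rw [hc1]
    show _ ≤ mean G
    rw [h6, le_div_iff₀ (by positivity)]
    refine le_trans (le_of_eq ?_) h1
    rw [h5, h2, div_pow]
    field_simp

/-- **MODD**: the model -/
theorem MODD (hQ : ∀ k : ℕ, 1 ≤ k → Qk k) (hPRT : PRT_stmt) (hTC : ∀ K : ℕ, 1 ≤ K → ¬ Pool.Agent.AL.TwoClusters K)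
    (W : Finset ℕ) (H : ℕ) (η : ℝ) (hW : W.Nonempty) (hWpos : ∀ w ∈ W, 0 < w) (hH : 1 ≤ H) (hη : 0 < η) :
    ∃ (M X₀ : ℕ) (g : ℕ → ℤ), 0 < M ∧ ∀ X : ℕ, X₀ ≤ X →
      ∃ (j : (↥W × Fin H → Fin (X * 2)) → ↥W × Fin H → ℝ) (U : Type) (_ : Fintype U) (_ : Nonempty U) (f : ↥W → U → ℝ),
        (∀ ξ p, j ξ p = 0 ∨ j ξ p = 1) ∧
        (∀ (ξ : ↥W × Fin H → Fin (X * 2)) (w w' : ↥W) (m m' : Fin H), w ≠ w' → j ξ (w, m) = 1 → j ξ (w', m') = 1 →
          TrueCase ((w' : ℕ) / Nat.gcd w w') ((w : ℕ) / Nat.gcd w w')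
            (cl ((w' : ℕ) / Nat.gcd w w') ((w : ℕ) / Nat.gcd w w') g (ξ (w, m)) (ξ (w', m')) +
              M * ps ((w' : ℕ) / Nat.gcd w w') ((w : ℕ) / Nat.gcd w w') (ξ (w, m)) (ξ (w', m')))) ∧
        (∀ w u, 0 ≤ f w u ∧ f w u ≤ 1) ∧
        (1 / 2 + 1 / 250000 - η) * #W ≤ ∑ w, mean (f w) ∧
        ∀ w w', w ≠ w' → (1 - η) / 4 * mean (fun u => f w u * f w' u) ≤
          mean (fun ξ : ↥W × Fin H → Fin (X * 2) => mean (fun m : Fin H => j ξ (w, m)) * mean (fun m' : Fin H => j ξ (w', m'))) := by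
  classical
  obtain ⟨k, hk⟩ : ∃ k : ℕ, k = #W * H * 2 := ⟨_, rfl⟩
  have hk1 : 1 ≤ k := by
    rw [hk]
    exact Nat.mul_pos (Nat.mul_pos (Finset.card_pos.mpr hW) hH) (by norm_num)
  obtain ⟨M, hMdef⟩ : ∃ M : ℕ, M = 2 * ((∏ w ∈ W, w) * k.factorial) := ⟨_, rfl⟩
  have hM : 0 < M := by
    rw [hMdef]
    exact Nat.mul_pos (by norm_num) (Nat.mul_pos (Finset.prod_pos hWpos) (Nat.factorial_pos k))
  have hM2 : 2 ∣ M := ⟨_, hMdef⟩
  have hP1 : ∀ p : ℕ, p.Prime → p ≤ k → p ∣ M := by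
    intro p hp hpk
    rw [hMdef]
    exact ((Nat.dvd_factorial hp.pos hpk).mul_left _).mul_left _
  have hP2 : ∀ w ∈ W, w ∣ M := by
    intro w hw
    rw [hMdef]
    exact ((Finset.dvd_prod_of_mem (fun w : ℕ => w) hw).mul_right _).mul_left _
  obtain ⟨C, δ, hC, hδ, hδ1, hQk⟩ := hQ k hk1
  have hlarge : ∃ L : ℕ, 1 ≤ L ∧ C * (L : ℝ) ^ (-δ) ≤ η := by
    have ht : Filter.Tendsto (fun X : ℕ => C * (X : ℝ) ^ (-δ)) Filter.atTop (nhds (C * 0)) :=
      ((tendsto_rpow_neg_atTop hδ).comp tendsto_natCast_atTop_atTop).const_mul C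
    rw [mul_zero] at ht
    have h1 := ht.eventually (eventually_le_nhds hη)
    obtain ⟨L, hL⟩ := Filter.eventually_atTop.mp h1
    exact ⟨max L 1, le_max_right _ _, hL _ (le_max_left _ _)⟩
  obtain ⟨L, hL, hLη⟩ := hlarge
  obtain ⟨u₀, z, hu, hzi, hbad⟩ := MDD_z hTC L M hL hM hM2
  obtain ⟨h, hh0, hh1⟩ := Pool.Agent.AL.HST M u₀ hM hu
  obtain ⟨g, hg⟩ : ∃ g : ℕ → ℤ, g = fun t => if t = 0 then h else h + u₀ := ⟨_, rfl⟩
  have hg0 : g 0 = h := by rw [hg]; rfl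
  have hg1 : g 1 = h + u₀ := by rw [hg]; rfl
  obtain ⟨S, hS⟩ : ∃ S : ℕ, S = ∑ t, ∑ i, (z t i).natAbs := ⟨_, rfl⟩
  have hzS : ∀ t i, |z t i| ≤ (S : ℤ) := by
    intro t i
    rw [Int.abs_eq_natAbs, hS]
    have h1 : (z t i).natAbs ≤ ∑ i, (z t i).natAbs :=
      Finset.single_le_sum (f := fun i => (z t i).natAbs) (fun _ _ => Nat.zero_le _) (Finset.mem_univ i)
    have h2 : (∑ i, (z t i).natAbs) ≤ ∑ t, ∑ i, (z t i).natAbs :=
      Finset.single_le_sum (f := fun t => ∑ i, (z t i).natAbs) (fun _ _ => Nat.zero_le _) (Finset.mem_univ t)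
    exact_mod_cast h1.trans h2
  obtain ⟨n, hn⟩ : ∃ n : ℕ, n = #W * H := ⟨_, rfl⟩
  refine ⟨M, 2 * S + 1 + ⌈2 * S * n / η⌉₊, g, hM, ?_⟩
  intro X hX
  obtain ⟨X1, hX1d⟩ : ∃ X1 : ℕ, X1 = X - 2 * S := ⟨_, rfl⟩
  have hX1 : 1 ≤ X1 := by omega
  have hXX : X = X1 + 2 * S := by omega
  have hX0 : (0 : ℝ) < X := by
    have : 0 < X := by omega
    exact_mod_cast this
  have hXn : 2 * S * n / η ≤ (X : ℝ) := by
    have h1 : 2 * S * n / η ≤ (⌈2 * S * n / η⌉₊ : ℝ) := Nat.le_ceil _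
    have h2 : ((⌈2 * S * n / η⌉₊ : ℕ) : ℝ) ≤ X := by
      have : ⌈2 * S * n / η⌉₊ ≤ X := by omega
      exact_mod_cast this
    exact h1.trans h2
  have hrat : 1 - η ≤ ((X1 : ℝ) / X) ^ n := by
    have h1 : (X1 : ℝ) / X = 1 + -(2 * S / X) := by
      have h2 : (X : ℝ) = X1 + 2 * S := by exact_mod_cast hXX
      field_simp
      rw [h2]
      ring
    have h3 : (2 * S : ℝ) / X ≤ 1 := by
      rw [div_le_one hX0]
      have : 2 * S ≤ X := by omega
      exact_mod_cast this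
    have h4 : (0 : ℝ) ≤ 2 * S / X := by positivity
    have h5 := one_add_mul_le_pow (show (-2 : ℝ) ≤ -(2 * S / X) by linarith) n
    rw [h1]
    refine le_trans ?_ h5
    have h6 : (n : ℝ) * (2 * S / X) ≤ η := by
      rw [div_le_iff₀ hη] at hXn
      rw [← mul_div_assoc, div_le_iff₀ hX0]
      linarith
    linarith
  obtain ⟨c, a, ha, ha1, haT, hmean⟩ := MDD_core hPRT W H L M S X1 k η C δ g u₀ z hWpos hX1 hL hk hP1 hM hP2
    (by rw [hg0]; exact hh0) (by rw [hg1]; exact hh1) (by rw [hg0, hg1]) hzi hbad (fun F L h1 h2 h3 => hQk F L h1 h2 h3) hLη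
  obtain ⟨j, hj, hjT, hjm⟩ := MDD_tr H L S X1 X z c a ha hX1 hXX hzS
  have hX1ne : Nonempty (Fin X1) := ⟨⟨0, hX1⟩⟩
  have hHne : Nonempty (Fin H) := ⟨⟨0, hH⟩⟩
  have hH0 : (0 : ℝ) < H := by exact_mod_cast hH
  have ha0 : ∀ u q, 0 ≤ a u q := by
    intro u q
    rcases ha u q with h | h <;> rw [h]
    norm_num
  have hf0 : ∀ (w : ↥W) (u : ↥W × Fin H → Fin X1), 0 ≤ mean (fun m : Fin H => a u ((w, m), 0) + a u ((w, m), 1)) ∧
      mean (fun m : Fin H => a u ((w, m), 0) + a u ((w, m), 1)) ≤ 1 := fun w u =>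
    ⟨LAM_mean_nonneg fun m => add_nonneg (ha0 _ _) (ha0 _ _), LAM_mean_le_one fun m => ha1 _ _⟩
  refine ⟨j, (↥W × Fin H → Fin X1), inferInstance, inferInstance,
    fun w u => mean (fun m : Fin H => a u ((w, m), 0) + a u ((w, m), 1)), hj, ?_, hf0, ?_, ?_⟩
  · intro ξ w w' m m' hww h1 h2
    obtain ⟨u, t, e1, e2, e3⟩ := hjT ξ (w, m) (w', m') h1 h2
    have h3 := haT u ((w, m), t (w, m)) ((w', m'), t (w', m')) hww e1 e2
    unfold cl ps
    rw [(e3 (w, m)).1, (e3 (w', m')).1, (e3 (w, m)).2, (e3 (w', m')).2]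
    exact h3
  · have h1 : (∑ w : ↥W, mean (fun u : ↥W × Fin H → Fin X1 => mean (fun m : Fin H => a u ((w, m), 0) + a u ((w, m), 1)))) =
        mean (fun u => ∑ q, a u q) / H := by
      have h2 : ∀ u : ↥W × Fin H → Fin X1, ∑ q, a u q = H * ∑ w : ↥W, mean (fun m : Fin H => a u ((w, m), 0) + a u ((w, m), 1)) := by
        intro u
        rw [Fintype.sum_prod_type, Fintype.sum_prod_type, Finset.mul_sum]
        apply Finset.sum_congr rfl
        intro w _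
        unfold mean
        rw [Fintype.card_fin, mul_div_cancel₀ _ hH0.ne']
        apply Finset.sum_congr rfl
        intro m _
        rw [Fin.sum_univ_two]
      rw [funext h2, LAM_mean_const_mul, mul_div_cancel_left₀ _ hH0.ne']
      unfold mean
      rw [Finset.sum_comm, Finset.sum_div]
    rw [h1, le_div_iff₀ hH0]
    refine le_trans ?_ hmean
    rw [hk]
    push_cast
    have hWH : (0 : ℝ) ≤ (#W : ℝ) * H := mul_nonneg (Nat.cast_nonneg _) (Nat.cast_nonneg _)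
    have hWH2 : 0 ≤ η * ((#W : ℝ) * H) := mul_nonneg hη.le hWH
    linarith
  · intro w w' hww
    have h1 := hjm w w' hww
    refine le_trans ?_ h1
    have h2 : Fintype.card ↥W * H = n := by rw [Fintype.card_coe, hn]
    rw [h2]
    have h3 : 0 ≤ mean (fun u : ↥W × Fin H → Fin X1 => mean (fun m : Fin H => a u ((w, m), 0) + a u ((w, m), 1)) *
            mean (fun m' : Fin H => a u ((w', m'), 0) + a u ((w', m'), 1))) :=
      LAM_mean_nonneg fun u => mul_nonneg (hf0 w u).1 (hf0 w' u).1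
    exact mul_le_mul_of_nonneg_right (by linarith) h3

end Pool.Agent.DI
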